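import Pool.Agent.H788R3.Bp.Domain

set_option autoImplicit false
open MeasureTheory Set Metric Complex Filter Topology

namespace Pool.Agent.H788R3.Bp

open Pool.Agent.H788R3.Sq

/-- averaging over a one-parameter family of measure preserving maps -/
theorem avg {X : Type*} [MeasurableSpace X] (μ : Measure X) [SFinite μ] (T : ℝ → X → X)
    (hT : Measurable (Function.uncurry T)) (hmp : ∀ a, MeasurePreserving (T a) μ μ) (F : X → ℂ)
    (hF : Integrable F μ) :
    Integrable (fun x => ∫ a in (0:ℝ)..2 * Real.pi, F (T a x)) μ ∧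
    (2 * Real.pi : ℂ) * ∫ x, F x ∂μ = ∫ x, (∫ a in (0:ℝ)..2 * Real.pi, F (T a x)) ∂μ := by
  set ν : Measure ℝ := volume.restrict (Ioc 0 (2 * Real.pi)) with hν
  have hpi := Real.pi_pos
  have h2pi : (0:ℝ) ≤ 2 * Real.pi := by linarith
  have hsk : MeasurePreserving (fun p : ℝ × X => (p.1, T p.1 p.2)) (ν.prod μ) (ν.prod μ) :=
    (MeasurePreserving.id ν).skew_product hT (Eventually.of_forall fun a => (hmp a).map_eq)
  have h1 : Integrable (fun p : ℝ × X => F p.2) (ν.prod μ) := hF.comp_snd ν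
  have h2 : Integrable (fun p : ℝ × X => F (T p.1 p.2)) (ν.prod μ) :=
    hsk.integrable_comp_of_integrable h1
  have h3 : Integrable (Function.uncurry fun (x : X) (a : ℝ) => F (T a x)) (μ.prod ν) := h2.swap
  have e : ∀ x, (∫ a in (0:ℝ)..2 * Real.pi, F (T a x)) = ∫ a, F (T a x) ∂ν := by
    intro x
    rw [intervalIntegral.integral_of_le h2pi]
  simp_rw [e]
  refine ⟨h3.integral_prod_left, ?_⟩
  rw [integral_integral_swap h3]
  have h4 : ∀ a, ∫ x, F (T a x) ∂μ = ∫ x, F x ∂μ := by
    intro a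
    have h5 := (hmp a).map_eq
    have h6 : AEStronglyMeasurable F (Measure.map (T a) μ) := by rw [h5]; exact hF.1
    calc ∫ x, F (T a x) ∂μ = ∫ y, F y ∂(Measure.map (T a) μ) := (integral_map (hmp a).measurable.aemeasurable h6).symm
      _ = _ := by rw [h5]
  simp_rw [h4]
  rw [integral_const]
  have h7 : ν.real univ = 2 * Real.pi := by
    rw [hν, measureReal_restrict_apply_univ, Measure.real, Real.volume_Ioc, sub_zero, ENNReal.toReal_ofReal h2pi]
  rw [h7]
  simp

/-- mean value property on a disc, in the form used here -/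
theorem mean_value {h : ℂ → ℂ} {S : Set ℂ} (hh : DifferentiableOn ℂ h S) {z : ℂ}
    (hz : ∀ z', ‖z'‖ ≤ ‖z‖ → z' ∈ S) :
    ∫ a in (0:ℝ)..2 * Real.pi, h (exp (a * I) * z) = 2 * Real.pi * h 0 := by
  have hsub : closedBall (0:ℂ) |‖z‖| ⊆ S := by
    intro z' hz'
    rw [mem_closedBall_zero_iff, abs_of_nonneg (norm_nonneg _)] at hz'
    exact hz z' hz'
  have h1 : DiffContOnCl ℂ h (ball 0 |‖z‖|) := by
    apply DifferentiableOn.diffContOnCl
    exact hh.mono ((closure_ball_subset_closedBall).trans hsub)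
  have h2 := h1.circleAverage
  rw [Real.circleAverage_def] at h2
  have hpi : (2 * Real.pi : ℝ) ≠ 0 := by have := Real.pi_pos; positivity
  have h3 : ∫ a in (0:ℝ)..2 * Real.pi, h (circleMap 0 ‖z‖ a) = 2 * Real.pi * h 0 := by
    rw [← h2, Complex.real_smul]
    push_cast
    have : (2 * Real.pi : ℂ) ≠ 0 := by exact_mod_cast hpi
    field_simp
  rw [← h3]
  -- shift by the argument of z
  have h4 : ∀ a : ℝ, exp (a * I) * z = circleMap 0 ‖z‖ (a + arg z) := by
    intro a
    rw [circleMap]
    push_cast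
    rw [add_mul, Complex.exp_add, zero_add]
    have := Complex.norm_mul_exp_arg_mul_I z
    calc exp (a * I) * z = exp (a * I) * (‖z‖ * exp (arg z * I)) := by rw [this]
      _ = _ := by ring
  simp_rw [h4]
  have h5 : Function.Periodic (fun a : ℝ => h (circleMap 0 ‖z‖ a)) (2 * Real.pi) := by
    intro a
    show h _ = h _
    rw [periodic_circleMap]
  rw [intervalIntegral.integral_comp_add_right (fun a => h (circleMap 0 ‖z‖ a)) (arg z), zero_add, add_comm]
  rw [h5.intervalIntegral_add_eq (arg z) 0, zero_add]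

/-- Fourier coefficient of a holomorphic function on the unit disc -/
theorem fourier (k : ℕ) : ∀ (H : ℂ → ℂ), DifferentiableOn ℂ H (ball 0 1) →
    ∃ a : ℂ, ∀ w ∈ ball (0:ℂ) 1,
      ∫ b in (0:ℝ)..2 * Real.pi, exp (-(k * b * I)) * H (exp (b * I) * w) = 2 * Real.pi * (a * w ^ k) := by
  induction k with
  | zero =>
    intro H hH
    refine ⟨H 0, fun w hw => ?_⟩
    have := mean_value (h := H) hH (z := w) (fun z' hz' => by
      rw [mem_ball_zero_iff] at hw ⊢
      linarith)
    simpa using this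
  | succ k ih =>
    intro H hH
    obtain ⟨a, ha⟩ := ih (dslope H 0) ((Complex.differentiableOn_dslope (ball_mem_nhds 0 one_pos)).mpr hH)
    refine ⟨a, fun w hw => ?_⟩
    have h1 : ∀ w : ℂ, H w = H 0 + w * dslope H 0 w := by
      intro w
      have := sub_smul_dslope H 0 w
      rw [sub_zero, smul_eq_mul] at this
      rw [this]; ring
    have h2 : ∀ b : ℝ, exp (-((k + 1 : ℕ) * b * I)) * H (exp (b * I) * w)
        = H 0 * exp ((-(k + 1 : ℕ) * I) * b) + w * (exp (-(k * b * I)) * dslope H 0 (exp (b * I) * w)) := by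
      intro b
      rw [h1 (exp (b * I) * w)]
      have e1 : exp (-((k + 1 : ℕ) * b * I)) = exp ((-(k + 1 : ℕ) * I) * b) := by
        congr 1; ring
      have e2 : exp (-((k + 1 : ℕ) * b * I)) * exp (b * I) = exp (-(k * b * I)) := by
        rw [← Complex.exp_add]
        congr 1
        push_cast
        ring
      calc exp (-((k + 1 : ℕ) * b * I)) * (H 0 + exp (b * I) * w * dslope H 0 (exp (b * I) * w))
          = H 0 * exp (-((k + 1 : ℕ) * b * I)) + w * ((exp (-((k + 1 : ℕ) * b * I)) * exp (b * I)) * dslope H 0 (exp (b * I) * w)) := by ring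
        _ = _ := by rw [e2, e1]
    simp_rw [h2]
    have hcont : ContinuousOn (dslope H 0) (ball 0 1) :=
      ((Complex.differentiableOn_dslope (ball_mem_nhds 0 one_pos)).mpr hH).continuousOn
    have hc1 : Continuous (fun b : ℝ => exp (-(k * b * I)) * dslope H 0 (exp (b * I) * w)) := by
      have hc2 : Continuous (fun b : ℝ => dslope H 0 (exp (b * I) * w)) := by
        apply hcont.comp_continuous (by fun_prop)
        intro b
        rw [mem_ball_zero_iff] at hw ⊢
        rw [norm_mul, Complex.norm_exp_ofReal_mul_I, one_mul]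
        exact hw
      have hc3 : Continuous (fun b : ℝ => exp (-(k * b * I))) := by fun_prop
      exact hc3.mul hc2
    have hc0 : Continuous (fun b : ℝ => H 0 * exp ((-(k + 1 : ℕ) * I) * b)) := by fun_prop
    have hc4 : Continuous (fun b : ℝ => w * (exp (-(k * b * I)) * dslope H 0 (exp (b * I) * w))) :=
      continuous_const.mul hc1
    rw [intervalIntegral.integral_add (hc0.intervalIntegrable _ _) (hc4.intervalIntegrable _ _)]
    rw [intervalIntegral.integral_const_mul, intervalIntegral.integral_const_mul, ha w hw]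
    have hne : (-(k + 1 : ℕ) * I : ℂ) ≠ 0 := by
      apply mul_ne_zero _ I_ne_zero
      rw [neg_ne_zero]
      exact_mod_cast Nat.succ_ne_zero k
    rw [integral_exp_mul_complex hne]
    have e3 : exp ((-(k + 1 : ℕ) * I : ℂ) * ((2 * Real.pi : ℝ) : ℂ)) = 1 := by
      rw [Complex.exp_eq_one_iff]
      refine ⟨-(k + 1 : ℕ), ?_⟩
      push_cast
      ring
    rw [e3]
    simp
    ring

theorem phi_mono {z z' : ℂ} (hz : ‖z‖ ≤ Real.exp 3 + 1) (h : ‖z'‖ ≤ ‖z‖) : phi z' ≤ phi z := by
  unfold phi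
  apply Summable.tsum_le_tsum _ (term_summable z') (term_summable z)
  intro k
  rw [uu_eq hz, uu_eq (h.trans hz)]
  apply mul_le_mul_of_nonneg_left _ (ee_pos k).le
  apply L_mono
  rw [norm_div_tt, norm_div_tt]
  have := tt_pos k
  gcongr

theorem Om_reinhardt {v v' : E2} (hv : v ∈ Om) (h0 : ‖v' 0‖ ≤ ‖v 0‖) (h1 : ‖v' 1‖ ≤ ‖v 1‖) : v' ∈ Om := by
  have hL := Om_L hv
  have hz := Om_z hv
  have hr : rho v < 0 := hv
  show rho v' < 0
  unfold rho at hr ⊢
  have h2 : L (v' 0 / (cc : ℝ)) ≤ L (v 0 / (cc : ℝ)) := by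
    apply L_mono
    rw [norm_div, norm_div]
    gcongr
  have h3 : phi (v' 0) ≤ phi (v 0) := phi_mono (by linarith) h0
  have h4 : ‖v' 1‖ ^ 2 * Real.exp (2 * phi (v' 0)) ≤ ‖v 1‖ ^ 2 * Real.exp (2 * phi (v 0)) := by
    have : Real.exp (2 * phi (v' 0)) ≤ Real.exp (2 * phi (v 0)) := Real.exp_le_exp.mpr (by linarith)
    gcongr
  linarith

noncomputable def rot (a b : ℝ) (v : E2) : E2 := ![exp (a * I) * v 0, exp (b * I) * v 1]

theorem rot_zero (a b : ℝ) (v : E2) : rot a b v 0 = exp (a * I) * v 0 := rfl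

theorem rot_one (a b : ℝ) (v : E2) : rot a b v 1 = exp (b * I) * v 1 := rfl

theorem norm_rot_zero (a b : ℝ) (v : E2) : ‖rot a b v 0‖ = ‖v 0‖ := by
  rw [rot_zero, norm_mul, Complex.norm_exp_ofReal_mul_I, one_mul]

theorem norm_rot_one (a b : ℝ) (v : E2) : ‖rot a b v 1‖ = ‖v 1‖ := by
  rw [rot_one, norm_mul, Complex.norm_exp_ofReal_mul_I, one_mul]

theorem rot_mem (a b : ℝ) (v : E2) : rot a b v ∈ Om ↔ v ∈ Om := by
  constructor
  · intro h
    exact Om_reinhardt h (norm_rot_zero a b v).ge (norm_rot_one a b v).ge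
  · intro h
    exact Om_reinhardt h (norm_rot_zero a b v).le (norm_rot_one a b v).le

theorem rot_preimage (a b : ℝ) : rot a b ⁻¹' Om = Om := by
  ext v
  exact rot_mem a b v

theorem rot_mp (a b : ℝ) : MeasurePreserving (rot a b) (volume : Measure E2) volume := by
  have h : ∀ a : ℝ, MeasurePreserving (fun z : ℂ => exp (a * I) * z) volume volume := by
    intro a
    have h1 := (rotation (Circle.exp a)).measurePreserving
    have h2 : ⇑(rotation (Circle.exp a)) = fun z : ℂ => exp (a * I) * z := by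
      ext z
      rw [rotation_apply, Circle.coe_exp]
    rw [h2] at h1
    exact h1
  have h3 := volume_preserving_pi (f := fun (i : Fin 2) => (![fun z : ℂ => exp (a * I) * z, fun z : ℂ => exp (b * I) * z] i))
    (by
      intro i
      fin_cases i
      · exact h a
      · exact h b)
  have h4 : rot a b = fun (v : E2) (i : Fin 2) => (![fun z : ℂ => exp (a * I) * z, fun z : ℂ => exp (b * I) * z] i) (v i) := by
    ext v i
    fin_cases i <;> rfl
  rw [h4]
  exact h3

theorem rot_mp' (a b : ℝ) : MeasurePreserving (rot a b) (volume.restrict Om) (volume.restrict Om) := by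
  have h := (rot_mp a b).restrict_preimage Om_open.measurableSet
  rw [rot_preimage] at h
  exact h

theorem rot_meas : Measurable (fun p : (ℝ × ℝ) × E2 => rot p.1.1 p.1.2 p.2) := by
  apply Continuous.measurable
  unfold rot
  apply continuous_pi
  intro i
  fin_cases i
  · simp
    fun_prop
  · simp
    fun_prop

instance : IsFiniteMeasure (volume.restrict Om : Measure E2) := by
  constructor
  rw [Measure.restrict_apply_univ]
  exact Om_bounded.measure_lt_top

theorem intervalIntegral_conj (f : ℝ → ℂ) (a b : ℝ) :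
    ∫ t in a..b, starRingEnd ℂ (f t) = starRingEnd ℂ (∫ t in a..b, f t) := by
  rw [intervalIntegral.intervalIntegral_eq_integral_uIoc, intervalIntegral.intervalIntegral_eq_integral_uIoc,
    integral_conj]
  split_ifs <;> simp

/-- The key orthogonality computation. -/
theorem pairing (k : ℕ) (h : E2 → ℂ)
    (hh : DifferentiableOn ℂ h Om) (hL2 : MemLp h 2 (volume.restrict Om)) :
    ∃ a : ℂ, ∀ (F : ℝ → ℝ), Measurable F → (∃ B : ℝ, ∀ s, |F s| ≤ B) →
      Integrable (fun v : E2 => (F ‖v 0‖ : ℂ) * v 1 ^ k * starRingEnd ℂ (h v)) (volume.restrict Om) ∧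
      ∫ v in Om, (F ‖v 0‖ : ℂ) * v 1 ^ k * starRingEnd ℂ (h v)
        = starRingEnd ℂ a * ∫ v in Om, (F ‖v 0‖ : ℂ) * (‖v 1‖ ^ (2 * k) : ℝ) := by
  have hpi := Real.pi_pos
  have h2pi : (2 * Real.pi : ℂ) ≠ 0 := by
    have : (2 * Real.pi : ℝ) ≠ 0 := by positivity
    exact_mod_cast this
  set H : ℂ → ℂ := fun w => h ![0, w] with hHdef
  have hH : DifferentiableOn ℂ H (ball 0 1) := by
    apply hh.comp
    · apply Differentiable.differentiableOn
      apply differentiable_pi.mpr
      intro i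
      fin_cases i
      · simp
      · simp
    · intro w hw
      rw [mem_ball_zero_iff] at hw
      show rho ![0, w] < 0
      unfold rho
      have h1 : ‖w‖ ^ 2 < 1 := by
        have := norm_nonneg w
        nlinarith
      simp [phi_zero, L_zero]
      exact hw
  obtain ⟨a, ha⟩ := fourier k H hH
  refine ⟨a, fun F hF hB => ?_⟩
  obtain ⟨B, hB⟩ := hB
  have hB0 : 0 ≤ B := (abs_nonneg _).trans (hB 0)
  have hhi : Integrable h (volume.restrict Om) := hL2.integrable (by norm_num)
  have hci : Integrable (fun v => starRingEnd ℂ (h v)) (volume.restrict Om) :=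
    (Complex.conjCLE.toContinuousLinearMap).integrable_comp hhi
  have hm1 : Measurable (fun v : E2 => (F ‖v 0‖ : ℂ) * v 1 ^ k) := by
    have h1 : Measurable (fun v : E2 => F ‖v 0‖) := hF.comp (measurable_pi_apply 0).norm
    have h2 : Measurable (fun v : E2 => v 1 ^ k) := (measurable_pi_apply 1).pow_const k
    exact (Complex.measurable_ofReal.comp h1).mul h2
  have hG1 : Integrable (fun v : E2 => (F ‖v 0‖ : ℂ) * v 1 ^ k * starRingEnd ℂ (h v)) (volume.restrict Om) := by
    apply Integrable.bdd_mul hci hm1.aestronglyMeasurable (c := B)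
    filter_upwards [ae_restrict_mem Om_open.measurableSet] with v hv
    have h1 := (Om_w' hv).le
    rw [norm_mul, norm_pow, Complex.norm_real, Real.norm_eq_abs]
    calc |F ‖v 0‖| * ‖v 1‖ ^ k ≤ B * 1 := by
          apply mul_le_mul (hB _) (pow_le_one₀ (norm_nonneg _) h1) (by positivity) hB0
      _ = B := mul_one B
  refine ⟨hG1, ?_⟩
  -- first average
  have hav1 := avg (volume.restrict Om) (fun a v => rot a 0 v)
    (by
      have : (Function.uncurry fun (a : ℝ) (v : E2) => rot a 0 v)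
          = (fun p : (ℝ × ℝ) × E2 => rot p.1.1 p.1.2 p.2) ∘ (fun p : ℝ × E2 => ((p.1, 0), p.2)) := rfl
      rw [this]
      apply rot_meas.comp
      fun_prop)
    (fun a => rot_mp' a 0) _ hG1
  have hin1 : ∀ v ∈ Om, (∫ t in (0:ℝ)..2 * Real.pi, (F ‖rot t 0 v 0‖ : ℂ) * rot t 0 v 1 ^ k * starRingEnd ℂ (h (rot t 0 v)))
      = 2 * Real.pi * ((F ‖v 0‖ : ℂ) * v 1 ^ k * starRingEnd ℂ (H (v 1))) := by
    intro v hv
    have e1 : ∀ t : ℝ, (F ‖rot t 0 v 0‖ : ℂ) * rot t 0 v 1 ^ k * starRingEnd ℂ (h (rot t 0 v))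
        = ((F ‖v 0‖ : ℂ) * v 1 ^ k) * starRingEnd ℂ (h ![exp (t * I) * v 0, v 1]) := by
      intro t
      rw [norm_rot_zero, rot_one]
      unfold rot
      simp
    simp_rw [e1]
    rw [intervalIntegral.integral_const_mul, intervalIntegral_conj]
    have hS : DifferentiableOn ℂ (fun z : ℂ => h ![z, v 1]) {z | ![z, v 1] ∈ Om} := by
      apply hh.comp
      · apply Differentiable.differentiableOn
        apply differentiable_pi.mpr
        intro i
        fin_cases i
        · simp
        · simp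
      · intro z hz
        exact hz
    rw [mean_value hS (z := v 0)]
    · simp only [map_mul, Complex.conj_ofReal, map_ofNat]
      ring
    · intro z' hz'
      show ![z', v 1] ∈ Om
      exact Om_reinhardt hv (by simpa using hz') (by simp)
  have hG2 : Integrable (fun v : E2 => (F ‖v 0‖ : ℂ) * v 1 ^ k * starRingEnd ℂ (H (v 1))) (volume.restrict Om) := by
    have h1 : Integrable (fun v : E2 => 2 * Real.pi * ((F ‖v 0‖ : ℂ) * v 1 ^ k * starRingEnd ℂ (H (v 1)))) (volume.restrict Om) := by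
      refine hav1.1.congr ?_
      filter_upwards [ae_restrict_mem Om_open.measurableSet] with v hv
      exact hin1 v hv
    have h2 := h1.const_mul ((2 * Real.pi : ℂ)⁻¹)
    refine h2.congr (Eventually.of_forall fun v => ?_)
    show (2 * Real.pi : ℂ)⁻¹ * (2 * Real.pi * _) = _
    rw [← mul_assoc, inv_mul_cancel₀ h2pi, one_mul]
  have hI1 : ∫ v in Om, (F ‖v 0‖ : ℂ) * v 1 ^ k * starRingEnd ℂ (h v)
      = ∫ v in Om, (F ‖v 0‖ : ℂ) * v 1 ^ k * starRingEnd ℂ (H (v 1)) := by
    have h1 := hav1.2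
    rw [setIntegral_congr_fun Om_open.measurableSet (fun v hv => hin1 v hv), integral_const_mul] at h1
    exact mul_left_cancel₀ h2pi h1
  rw [hI1]
  -- second average
  have hav2 := avg (volume.restrict Om) (fun b v => rot 0 b v)
    (by
      have : (Function.uncurry fun (b : ℝ) (v : E2) => rot 0 b v)
          = (fun p : (ℝ × ℝ) × E2 => rot p.1.1 p.1.2 p.2) ∘ (fun p : ℝ × E2 => ((0, p.1), p.2)) := rfl
      rw [this]
      apply rot_meas.comp
      fun_prop)
    (fun b => rot_mp' 0 b) _ hG2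
  have hin2 : ∀ v ∈ Om, (∫ b in (0:ℝ)..2 * Real.pi, (F ‖rot 0 b v 0‖ : ℂ) * rot 0 b v 1 ^ k * starRingEnd ℂ (H (rot 0 b v 1)))
      = 2 * Real.pi * (starRingEnd ℂ a * ((F ‖v 0‖ : ℂ) * (‖v 1‖ ^ (2 * k) : ℝ))) := by
    intro v hv
    have e1 : ∀ b : ℝ, (F ‖rot 0 b v 0‖ : ℂ) * rot 0 b v 1 ^ k * starRingEnd ℂ (H (rot 0 b v 1))
        = ((F ‖v 0‖ : ℂ) * v 1 ^ k) * starRingEnd ℂ (exp (-(k * b * I)) * H (exp (b * I) * v 1)) := by
      intro b
      rw [norm_rot_zero, rot_one, mul_pow, ← Complex.exp_nat_mul, map_mul, ← Complex.exp_conj]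
      have e2 : starRingEnd ℂ (-(k * b * I)) = k * (b * I) := by
        simp
        ring
      rw [e2]
      ring
    simp_rw [e1]
    rw [intervalIntegral.integral_const_mul, intervalIntegral_conj, ha (v 1) (by
      rw [mem_ball_zero_iff]; exact Om_w' hv)]
    simp only [map_mul, Complex.conj_ofReal, map_ofNat, map_pow]
    have e3 : (((‖v 1‖ ^ (2 * k) : ℝ)) : ℂ) = v 1 ^ k * (starRingEnd ℂ (v 1)) ^ k := by
      rw [← mul_pow, Complex.mul_conj, pow_mul, ← Complex.normSq_eq_norm_sq]
      push_cast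
      ring
    rw [e3]
    ring
  have h1 := hav2.2
  rw [setIntegral_congr_fun Om_open.measurableSet (fun v hv => hin2 v hv), integral_const_mul, integral_const_mul] at h1
  exact mul_left_cancel₀ h2pi h1

end Pool.Agent.H788R3.Bp
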