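import Pool.Agent.H788R3.Bp.Seq

set_option autoImplicit false
open MeasureTheory Set Metric Complex Filter Topology

namespace Pool.Agent.H788R3.Bp

open Pool.Agent.H788R3.Sq

abbrev E2 := Fin 2 → ℂ

noncomputable def cc : ℝ := Real.exp 2

theorem cc_pos : 0 < cc := Real.exp_pos _

noncomputable def rho (v : E2) : ℝ := ‖v 1‖ ^ 2 * Real.exp (2 * phi (v 0)) + L (v 0 / (cc : ℝ)) - 1

def Om : Set E2 := {v | rho v < 0}

theorem coord_contDiff (i : Fin 2) (n : ℕ) : ContDiff ℝ n (fun v : E2 => v i) := contDiff_apply ℝ ℂ i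

theorem rho_contDiff (n : ℕ) : ContDiff ℝ n rho := by
  have h0 : ContDiff ℝ n (fun v : E2 => v 0) := coord_contDiff 0 n
  have h1 : ContDiff ℝ n (fun v : E2 => v 1) := coord_contDiff 1 n
  have h2 : ContDiff ℝ n (fun v : E2 => ‖v 1‖ ^ 2) := h1.norm_sq ℝ
  have h3 : ContDiff ℝ n (fun v : E2 => phi (v 0)) := (phi_contDiff n).comp h0
  have h4 : ContDiff ℝ n (fun v : E2 => L (v 0 / (cc : ℝ))) := by
    have : ContDiff ℝ n (fun v : E2 => v 0 / (cc : ℝ)) := by fun_prop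
    exact (L_contDiff n).comp this
  unfold rho
  exact ((h2.mul (contDiff_const.mul h3).exp).add h4).sub contDiff_const

theorem rho_smooth : ContDiff ℝ ((⊤ : ℕ∞) : WithTop ℕ∞) rho := by
  rw [contDiff_infty]
  exact fun n => rho_contDiff n

theorem rho_continuous : Continuous rho := (rho_contDiff 0).continuous

theorem Om_open : IsOpen Om := isOpen_lt rho_continuous continuous_const

theorem L_lt_one {z : ℂ} (h : L (z / (cc : ℝ)) < 1) : ‖z‖ < Real.exp 3 := by
  rcases eq_or_ne z 0 with h0 | h0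
  · rw [h0, norm_zero]; exact Real.exp_pos _
  · have hc : (cc : ℂ) ≠ 0 := by exact_mod_cast cc_pos.ne'
    have h1 : z / (cc : ℝ) ≠ 0 := div_ne_zero h0 hc
    have h2 := (log_le_L h1).trans_lt h
    have h3 : ‖z / (cc : ℝ)‖ = ‖z‖ / cc := by
      rw [norm_div, Complex.norm_real, Real.norm_of_nonneg cc_pos.le]
    rw [h3, Real.log_lt_iff_lt_exp (by have := cc_pos; positivity), div_lt_iff₀ cc_pos, cc, ← Real.exp_add] at h2
    norm_num at h2
    exact h2

theorem Om_L {v : E2} (hv : v ∈ Om) : L (v 0 / (cc : ℝ)) < 1 := by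
  have h1 : rho v < 0 := hv
  have h2 : 0 ≤ ‖v 1‖ ^ 2 * Real.exp (2 * phi (v 0)) := by positivity
  unfold rho at h1
  linarith

theorem Om_z {v : E2} (hv : v ∈ Om) : ‖v 0‖ < Real.exp 3 := L_lt_one (Om_L hv)

theorem Om_w {v : E2} (hv : v ∈ Om) : ‖v 1‖ * Real.exp (phi (v 0)) < 1 := by
  have h1 : rho v < 0 := hv
  have h2 := L_nonneg (v 0 / (cc : ℝ))
  unfold rho at h1
  have h3 : (‖v 1‖ * Real.exp (phi (v 0))) ^ 2 = ‖v 1‖ ^ 2 * Real.exp (2 * phi (v 0)) := by
    rw [mul_pow, ← Real.exp_nat_mul]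
    norm_cast
  have h4 : (‖v 1‖ * Real.exp (phi (v 0))) ^ 2 < 1 := by rw [h3]; linarith
  exact lt_of_pow_lt_pow_left₀ 2 (by norm_num) (by linarith)

theorem Om_w2 {v : E2} (hv : v ∈ Om) : ‖v 1‖ < Real.exp (-(phi (v 0))) := by
  rw [Real.exp_neg, ← one_div, lt_div_iff₀ (Real.exp_pos _)]
  exact Om_w hv

theorem Om_w' {v : E2} (hv : v ∈ Om) : ‖v 1‖ < 1 := by
  have h1 := Om_w hv
  have h2 : 1 ≤ Real.exp (phi (v 0)) := Real.one_le_exp (phi_nonneg _)
  have h3 := norm_nonneg (v 1)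
  nlinarith

theorem Om_bounded : Bornology.IsBounded Om := by
  rw [Metric.isBounded_iff_subset_closedBall 0]
  refine ⟨Real.exp 3 + 1, fun v hv => ?_⟩
  rw [mem_closedBall_zero_iff, pi_norm_le_iff_of_nonneg (by positivity)]
  intro i
  have h1 := Om_z hv
  have h2 := Om_w' hv
  have h3 := Real.exp_pos 3
  fin_cases i
  · show ‖v 0‖ ≤ _
    linarith
  · show ‖v 1‖ ≤ _
    linarith

theorem L_scale_deriv {ξ : ℂ} (h : ξ ≠ 0) :
    HasDerivAt (fun s : ℝ => L (((1 + s : ℝ) : ℂ) * ξ)) (Real.smoothTransition (Real.log ‖ξ‖ + 1)) 0 := by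
  have h1 : (fun s : ℝ => L (((1 + s : ℝ) : ℂ) * ξ)) =ᶠ[𝓝 0] fun s => G (Real.log (1 + s) + Real.log ‖ξ‖) := by
    have : Ioi (-1:ℝ) ∈ 𝓝 (0:ℝ) := Ioi_mem_nhds (by norm_num)
    filter_upwards [this] with s hs
    have hs : -1 < s := hs
    have hs' : 0 < 1 + s := by linarith
    have h2 : (((1 + s : ℝ) : ℂ) * ξ) ≠ 0 := mul_ne_zero (by exact_mod_cast hs'.ne') h
    rw [L_of_ne h2, norm_mul, Complex.norm_real, Real.norm_of_nonneg hs'.le,
      Real.log_mul hs'.ne' (norm_ne_zero_iff.mpr h)]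
  refine HasDerivAt.congr_of_eventuallyEq ?_ h1
  have h3 : HasDerivAt (fun s : ℝ => Real.log (1 + s) + Real.log ‖ξ‖) 1 0 := by
    have h4 : HasDerivAt (fun s : ℝ => 1 + s) 1 0 := (hasDerivAt_id 0).const_add 1
    have h5 := (h4.log (by norm_num)).add_const (Real.log ‖ξ‖)
    simpa using h5
  have h6 := (G_deriv (Real.log (1 + 0) + Real.log ‖ξ‖)).comp 0 h3
  have h7 : Real.smoothTransition (Real.log (1 + 0) + Real.log ‖ξ‖ + 1) * 1
      = Real.smoothTransition (Real.log ‖ξ‖ + 1) := by simp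
  rw [h7] at h6
  exact h6

theorem rho_grad (v : E2) (hv : rho v = 0) : fderiv ℝ rho v ≠ 0 := by
  intro hzero
  have hdiff : DifferentiableAt ℝ rho v := (rho_contDiff 1).differentiable (by norm_num) v
  have hline : ∀ u : E2, HasDerivAt (fun s : ℝ => rho (v + s • u)) 0 0 := by
    intro u
    have h1 : HasDerivAt (fun s : ℝ => v + s • u) u 0 := by
      have := ((hasDerivAt_id (0:ℝ)).smul_const u).const_add v
      simpa using this
    have h2 : HasFDerivAt rho (0 : E2 →L[ℝ] ℝ) (v + (0:ℝ) • u) := by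
      rw [zero_smul, add_zero, ← hzero]
      exact hdiff.hasFDerivAt
    have h3 : HasDerivAt (rho ∘ fun s : ℝ => v + s • u) ((0 : E2 →L[ℝ] ℝ) u) 0 := h2.comp_hasDerivAt (0:ℝ) h1
    exact h3
  by_cases hw : v 1 = 0
  · -- radial direction
    have hL : L (v 0 / (cc : ℝ)) = 1 := by
      unfold rho at hv
      rw [hw] at hv
      simp at hv
      linarith
    have hξ : v 0 / (cc : ℝ) ≠ 0 := by
      intro h
      rw [h, L_zero] at hL
      exact zero_ne_one hL
    have h1 := hline (Pi.single 0 (v 0))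
    have h2 : (fun s : ℝ => rho (v + s • (Pi.single 0 (v 0) : E2)))
        = fun s : ℝ => L (((1 + s : ℝ) : ℂ) * (v 0 / (cc : ℝ))) - 1 := by
      ext s
      unfold rho
      have e0 : (v + s • (Pi.single 0 (v 0) : E2)) 0 = ((1 + s : ℝ) : ℂ) * v 0 := by
        simp
        ring
      have e1 : (v + s • (Pi.single 0 (v 0) : E2)) 1 = 0 := by
        simp [hw]
      rw [e0, e1]
      simp
      ring_nf
    rw [h2] at h1
    have h3 := (L_scale_deriv hξ).sub_const 1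
    have h4 := h1.unique h3
    have h5 : 0 < Real.smoothTransition (Real.log ‖v 0 / (cc : ℝ)‖ + 1) := by
      apply Real.smoothTransition.pos_of_pos
      by_contra hneg
      push Not at hneg
      rw [L_of_ne hξ, G_zero (by linarith)] at hL
      exact zero_ne_one hL
    linarith
  · have h1 := hline (Pi.single 1 (v 1))
    have h2 : (fun s : ℝ => rho (v + s • (Pi.single 1 (v 1) : E2)))
        = fun s : ℝ => (1 + s) ^ 2 * (‖v 1‖ ^ 2 * Real.exp (2 * phi (v 0))) + L (v 0 / (cc : ℝ)) - 1 := by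
      ext s
      unfold rho
      have e0 : (v + s • (Pi.single 1 (v 1) : E2)) 0 = v 0 := by
        simp
      have e1 : (v + s • (Pi.single 1 (v 1) : E2)) 1 = ((1 + s : ℝ) : ℂ) * v 1 := by
        simp
        ring
      rw [e0, e1, norm_mul, Complex.norm_real, mul_pow, Real.norm_eq_abs, sq_abs]
      ring
    rw [h2] at h1
    have h3 : HasDerivAt (fun s : ℝ => (1 + s) ^ 2 * (‖v 1‖ ^ 2 * Real.exp (2 * phi (v 0))) + L (v 0 / (cc : ℝ)) - 1)
        (2 * (‖v 1‖ ^ 2 * Real.exp (2 * phi (v 0)))) 0 := by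
      have h4 : HasDerivAt (fun s : ℝ => (1 + s) ^ 2) 2 0 := by
        have h5 : HasDerivAt (fun s : ℝ => 1 + s) 1 0 := (hasDerivAt_id 0).const_add 1
        have h6 : HasDerivAt (fun s : ℝ => (1 + s) ^ 2) (((2 : ℕ) : ℝ) * (1 + 0) ^ (2 - 1) * 1) 0 := h5.pow 2
        have h7 : (((2 : ℕ) : ℝ) * (1 + 0) ^ (2 - 1) * 1) = 2 := by norm_num
        rw [h7] at h6
        exact h6
      exact ((h4.mul_const _).add_const _).sub_const 1
    have h4 := h1.unique h3
    have h5 : 0 < ‖v 1‖ ^ 2 * Real.exp (2 * phi (v 0)) := by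
      have := norm_pos_iff.mpr hw
      positivity
    linarith

theorem zero_mem_Om : (0 : E2) ∈ Om := by
  show rho 0 < 0
  unfold rho
  simp [L_zero]

/-- monotone in `|w|` -/
theorem Om_mono_w {v v' : E2} (hv : v ∈ Om) (h0 : v' 0 = v 0) (h1 : ‖v' 1‖ ≤ ‖v 1‖) : v' ∈ Om := by
  have hv' : rho v < 0 := hv
  show rho v' < 0
  unfold rho at hv' ⊢
  rw [h0]
  have h2 : ‖v' 1‖ ^ 2 * Real.exp (2 * phi (v 0)) ≤ ‖v 1‖ ^ 2 * Real.exp (2 * phi (v 0)) := by gcongr
  linarith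

/-- on `w = 0` monotone in `|z|` -/
theorem Om_mono_z {v v' : E2} (hv : v ∈ Om) (h0 : ‖v' 0‖ ≤ ‖v 0‖) (h1 : v' 1 = 0) : v' ∈ Om := by
  have hL := Om_L hv
  show rho v' < 0
  unfold rho
  rw [h1]
  have h2 : L (v' 0 / (cc : ℝ)) ≤ L (v 0 / (cc : ℝ)) := by
    apply L_mono
    rw [norm_div, norm_div]
    gcongr
  simp
  linarith

theorem Om_connected : IsConnected Om := by
  refine ⟨⟨0, zero_mem_Om⟩, ?_⟩
  apply isPreconnected_of_forall (0 : E2)
  intro v hv
  set γ : ℝ → ℝ → E2 := fun s t => ![(s : ℂ) * v 0, (t : ℂ) * v 1] with hγ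
  have hmem : ∀ s t : ℝ, 0 ≤ s → s ≤ 1 → 0 ≤ t → t ≤ 1 → (s = 1 ∨ t = 0) → γ s t ∈ Om := by
    intro s t hs0 hs1 ht0 ht1 hor
    rcases hor with h | h
    · subst h
      apply Om_mono_w hv
      · simp [hγ]
      · simp only [hγ, Matrix.cons_val_one, Matrix.cons_val_fin_one]
        rw [norm_mul, Complex.norm_real, Real.norm_of_nonneg ht0]
        exact mul_le_of_le_one_left (norm_nonneg _) ht1
    · subst h
      apply Om_mono_z hv
      · simp only [hγ, Matrix.cons_val_zero]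
        rw [norm_mul, Complex.norm_real, Real.norm_of_nonneg hs0]
        exact mul_le_of_le_one_left (norm_nonneg _) hs1
      · simp [hγ]
  have hγc : Continuous (fun p : ℝ × ℝ => γ p.1 p.2) := by
    rw [hγ]
    apply continuous_pi
    intro i
    fin_cases i
    · simp
      fun_prop
    · simp
      fun_prop
  refine ⟨(fun t : ℝ => γ 1 t) '' Icc 0 1 ∪ (fun s : ℝ => γ s 0) '' Icc 0 1, ?_, ?_, ?_, ?_⟩
  · rintro x (⟨t, ht, rfl⟩ | ⟨s, hs, rfl⟩)
    · exact hmem 1 t zero_le_one le_rfl ht.1 ht.2 (Or.inl rfl)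
    · exact hmem s 0 hs.1 hs.2 le_rfl zero_le_one (Or.inr rfl)
  · right
    refine ⟨0, ⟨le_rfl, zero_le_one⟩, ?_⟩
    ext i
    fin_cases i <;> simp [hγ]
  · left
    refine ⟨1, ⟨zero_le_one, le_rfl⟩, ?_⟩
    ext i
    fin_cases i <;> simp [hγ]
  · have c1 : IsPreconnected ((fun t : ℝ => γ 1 t) '' Icc 0 1) :=
      isPreconnected_Icc.image _ (hγc.comp (continuous_const.prodMk continuous_id)).continuousOn
    have c2 : IsPreconnected ((fun s : ℝ => γ s 0) '' Icc 0 1) :=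
      isPreconnected_Icc.image _ (hγc.comp (continuous_id.prodMk continuous_const)).continuousOn
    exact c1.union (γ 1 0) ⟨0, ⟨le_rfl, zero_le_one⟩, rfl⟩ ⟨1, ⟨zero_le_one, le_rfl⟩, rfl⟩ c2

end Pool.Agent.H788R3.Bp
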