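import Pool.Agent.H788R3.Bp.Int

set_option autoImplicit false
open MeasureTheory Set Metric Complex Filter Topology
open scoped ENNReal

namespace Pool.Agent.H788R3.Bp

open Pool.Agent.H788R3.Sq

noncomputable def RR (j : ℕ) : ℝ := Real.exp (-1) * tt j

theorem RR_pos (j : ℕ) : 0 < RR j := mul_pos (Real.exp_pos _) (tt_pos j)

theorem RR_lt_one (j : ℕ) : RR j < 1 := by
  have h1 : Real.exp (-1) < 1 := by rw [Real.exp_lt_one_iff]; norm_num
  have h2 := tt_le_one j
  have h3 := tt_pos j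
  unfold RR
  nlinarith

theorem ratio (j : ℕ) : tt (j + 1) / RR j = Real.exp (-(2 * 3 ^ j - 1)) := by
  unfold RR tt
  rw [← Real.exp_add, ← Real.exp_sub]
  congr 1
  rw [pow_succ]
  ring

theorem ratio_le_one (j : ℕ) : tt (j + 1) / RR j ≤ 1 := by
  rw [ratio, Real.exp_le_one_iff]
  have : (1:ℝ) ≤ 3 ^ j := one_le_pow₀ (by norm_num)
  linarith

theorem t_le_R (j : ℕ) : tt (j + 1) ≤ RR j := by
  have := ratio_le_one j
  rwa [div_le_one (RR_pos j)] at this

theorem R_small {j : ℕ} {z : ℂ} (hz : ‖z‖ ≤ RR j) : ∀ i < j + 1, ‖z‖ ≤ Real.exp (-1) * tt i := by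
  intro i hi
  refine hz.trans ?_
  unfold RR
  exact mul_le_mul_of_nonneg_left (tt_anti (by omega)) (Real.exp_pos _).le

noncomputable def kk (j : ℕ) : ℕ := NN (j + 1) - 1

theorem kk_add (j : ℕ) : (kk j : ℝ) + 1 = NN (j + 1) := by
  have h := NN_pos (j + 1)
  unfold kk
  rw [Nat.cast_sub (by omega)]
  simp

theorem kk_ge (j : ℕ) : (1:ℝ) ≤ kk j := by
  have h := NN_ge (j + 1)
  have h2 : 2 ≤ 2 ^ (j + 1 + 1) := by
    calc 2 = 2 ^ 1 := by norm_num
      _ ≤ 2 ^ (j + 1 + 1) := Nat.pow_le_pow_right (by norm_num) (by omega)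
  have : 1 ≤ kk j := by unfold kk; omega
  exact_mod_cast this

def AA (j : ℕ) : Set ℝ := Ioo (RR j / 2) (RR j)

noncomputable def FA (j : ℕ) (z : ℂ) : ℝ≥0∞ := (AA j).indicator 1 ‖z‖

theorem FA_meas (j : ℕ) : Measurable (FA j) :=
  (measurable_one.indicator measurableSet_Ioo).comp measurable_norm

theorem pi_coe : (↑NNReal.pi : ℝ≥0∞) = ENNReal.ofReal Real.pi := by
  rw [← ENNReal.ofReal_coe_nnreal]; rfl

theorem vol_ball (c : ℂ) {r : ℝ} (hr : 0 ≤ r) : volume (ball c r) = ENNReal.ofReal (Real.pi * r ^ 2) := by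
  rw [Complex.volume_ball, pi_coe, ← ENNReal.ofReal_pow hr, ← ENNReal.ofReal_mul (by positivity), mul_comm]

theorem A_ge (j : ℕ) : JJ (2 * kk j) * ENNReal.ofReal (Real.pi * Real.exp (-4) * tt (j + 1) ^ 2 / 16)
    ≤ ∫⁻ v in Om, FA j (v 0) * ENNReal.ofReal (‖v 1‖ ^ (2 * kk j : ℝ)) := by
  have hk := kk_ge j
  have hR := RR_pos j
  have hR1 := RR_lt_one j
  have ht := tt_pos (j + 1)
  have htR := t_le_R j
  have hpi := Real.pi_pos
  refine le_trans ?_ (lower (FA j) (FA_meas j) (a := 2 * kk j) (by linarith))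
  gcongr
  set r := RR j / tt (j + 1) with hr
  have hr1 : 1 ≤ r := by rw [hr, one_le_div ht]; exact htR
  have hq : ((2 * kk j : ℝ) + 2) / NN (j + 1) = 2 := by
    have hN := NN_pos' (j + 1)
    rw [← kk_add]
    rw [← kk_add] at hN
    rw [div_eq_iff hN.ne']
    ring
  have hsub : ball ((3 * RR j / 4 : ℝ) : ℂ) (RR j / 4) ⊆ ball (0:ℂ) 1 := by
    intro z hz
    rw [mem_ball_zero_iff]
    rw [mem_ball, dist_eq_norm] at hz
    have h1 : ‖z‖ ≤ ‖z - ((3 * RR j / 4 : ℝ) : ℂ)‖ + ‖((3 * RR j / 4 : ℝ) : ℂ)‖ := by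
      calc ‖z‖ = ‖(z - ((3 * RR j / 4 : ℝ) : ℂ)) + ((3 * RR j / 4 : ℝ) : ℂ)‖ := by ring_nf
        _ ≤ _ := norm_add_le _ _
    rw [Complex.norm_real, Real.norm_of_nonneg (by positivity)] at h1
    linarith
  calc ENNReal.ofReal (Real.pi * Real.exp (-4) * tt (j + 1) ^ 2 / 16)
      = ENNReal.ofReal (Real.exp (-(2 * (Real.log r + 2)))) * volume (ball ((3 * RR j / 4 : ℝ) : ℂ) (RR j / 4)) := by
        rw [vol_ball _ (by positivity), ← ENNReal.ofReal_mul (Real.exp_pos _).le]
        congr 1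
        have h1 : Real.exp (-(2 * (Real.log r + 2))) = Real.exp (-4) * (1 / r ^ 2) := by
          have : -(2 * (Real.log r + 2)) = -4 + -(2 * Real.log r) := by ring
          rw [this, Real.exp_add, Real.exp_neg (2 * Real.log r), two_mul, Real.exp_add, Real.exp_log (by linarith)]
          rw [one_div, sq]
        rw [h1, hr]
        field_simp
        ring
    _ = ∫⁻ z in ball ((3 * RR j / 4 : ℝ) : ℂ) (RR j / 4), ENNReal.ofReal (Real.exp (-(2 * (Real.log r + 2)))) := by
        rw [setLIntegral_const]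
    _ ≤ ∫⁻ z in ball ((3 * RR j / 4 : ℝ) : ℂ) (RR j / 4), FA j z * ENNReal.ofReal (WW (2 * kk j) z) := by
        apply setLIntegral_mono (show Measurable (fun z => FA j z * ENNReal.ofReal (WW (2 * kk j) z)) from (FA_meas j).mul (WW_meas _))
        intro z hz
        rw [mem_ball, dist_eq_norm] at hz
        have h1 : ‖z‖ ≤ ‖z - ((3 * RR j / 4 : ℝ) : ℂ)‖ + ‖((3 * RR j / 4 : ℝ) : ℂ)‖ := by
          calc ‖z‖ = ‖(z - ((3 * RR j / 4 : ℝ) : ℂ)) + ((3 * RR j / 4 : ℝ) : ℂ)‖ := by ring_nf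
            _ ≤ _ := norm_add_le _ _
        have h2 : ‖((3 * RR j / 4 : ℝ) : ℂ)‖ ≤ ‖z‖ + ‖z - ((3 * RR j / 4 : ℝ) : ℂ)‖ := by
          calc ‖((3 * RR j / 4 : ℝ) : ℂ)‖ = ‖z - (z - ((3 * RR j / 4 : ℝ) : ℂ))‖ := by ring_nf
            _ ≤ _ := norm_sub_le _ _
        rw [Complex.norm_real, Real.norm_of_nonneg (by positivity)] at h1 h2
        have h3 : FA j z = 1 := by
          unfold FA
          rw [indicator_of_mem]
          · rfl
          · constructor <;> linarith
        rw [h3, one_mul]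
        apply ENNReal.ofReal_le_ofReal
        have h4 := WW_ge (a := 2 * kk j) (by linarith) (j := j + 1) (z := z) (R_small (by linarith)) (by
          have := Real.exp_pos 3
          linarith) hr1 (by
          rw [hr, div_mul_cancel₀ _ ht.ne']
          linarith)
        rw [hq] at h4
        exact h4
    _ ≤ ∫⁻ z in ball (0:ℂ) 1, FA j z * ENNReal.ofReal (WW (2 * kk j) z) := lintegral_mono_set hsub

theorem D_le (j : ℕ) : ∫⁻ v in Om, ENNReal.ofReal (‖v 1‖ ^ (2 * kk j : ℝ)) ≤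
    JJ (2 * kk j) * ENNReal.ofReal (Real.pi * tt (j + 1) ^ 2 * (25 + 24 * 3 ^ j)) := by
  have hk := kk_ge j
  have ht := tt_pos (j + 1)
  have h1 := upper (fun _ => 1) measurable_const (a := 2 * kk j) (by linarith)
  simp only [one_mul] at h1
  refine h1.trans ?_
  gcongr
  have hq : ((2 * kk j : ℝ) + 2) / NN (j + 1) = 2 := by
    have hN := NN_pos' (j + 1)
    rw [← kk_add]
    rw [← kk_add] at hN
    rw [div_eq_iff hN.ne']
    ring
  have h2 := dyadic (g := fun z => ENNReal.ofReal (WW (2 * kk j) z)) ht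
    (fun z => by rw [ENNReal.ofReal_le_one]; exact WW_le_one (by linarith) z)
    (fun z hz0 hz => by
      apply ENNReal.ofReal_le_ofReal
      have := WW_le (a := 2 * kk j) (by linarith) (j + 1) hz hz0
      rw [hq] at this
      exact_mod_cast this) (2 * (3 + 3 ^ (j + 1)))
  have hbig : Real.exp 3 ≤ 2 ^ (2 * (3 + 3 ^ (j + 1))) * tt (j + 1) := by
    rw [pow_mul]
    have h3 : Real.exp 1 ≤ 2 ^ 2 := by
      have := Real.exp_one_lt_d9
      linarith
    have h4 : Real.exp 1 ^ (3 + 3 ^ (j + 1)) ≤ ((2:ℝ) ^ 2) ^ (3 + 3 ^ (j + 1)) :=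
      pow_le_pow_left₀ (Real.exp_pos _).le h3 _
    rw [← Real.exp_nat_mul, mul_one] at h4
    calc Real.exp 3 = Real.exp ((3 + 3 ^ (j + 1) : ℕ) : ℝ) * tt (j + 1) := by
          unfold tt
          rw [← Real.exp_add]
          congr 1
          push_cast
          ring
      _ ≤ _ := by gcongr
  have h5 : ball (0:ℂ) (2 ^ (2 * (3 + 3 ^ (j + 1))) * tt (j + 1)) ∩ ball 0 (Real.exp 3) = ball 0 (Real.exp 3) :=
    inter_eq_right.mpr (ball_subset_ball hbig)
  rw [h5] at h2
  refine h2.trans ?_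
  apply ENNReal.ofReal_le_ofReal
  apply le_of_eq
  push_cast
  ring

theorem P_ge (j : ℕ) {p : ℝ} (hp : 2 < p) :
    JJ (kk j * p) * ENNReal.ofReal (Real.pi * tt (j + 1) ^ 2 * Real.exp (-(2 * p)))
    ≤ ∫⁻ v in Om, ENNReal.ofReal (‖v 1‖ ^ (kk j * p)) := by
  have hk := kk_ge j
  have ht := tt_pos (j + 1)
  have htR := t_le_R j
  have hR1 := RR_lt_one j
  have hpi := Real.pi_pos
  have hkp : 0 ≤ kk j * p := by positivity
  have h1 := lower (fun _ => 1) measurable_const (a := kk j * p) hkp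
  simp only [one_mul] at h1
  refine le_trans ?_ h1
  gcongr
  have hq : (kk j * p + 2) / NN (j + 1) ≤ p := by
    have hN := NN_pos' (j + 1)
    rw [div_le_iff₀ hN, ← kk_add]
    nlinarith
  calc ENNReal.ofReal (Real.pi * tt (j + 1) ^ 2 * Real.exp (-(2 * p)))
      = ENNReal.ofReal (Real.exp (-(2 * p))) * volume (ball (0:ℂ) (tt (j + 1))) := by
        rw [vol_ball _ ht.le, ← ENNReal.ofReal_mul (Real.exp_pos _).le]
        congr 1
        ring
    _ = ∫⁻ z in ball (0:ℂ) (tt (j + 1)), ENNReal.ofReal (Real.exp (-(2 * p))) := by rw [setLIntegral_const]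
    _ ≤ ∫⁻ z in ball (0:ℂ) (tt (j + 1)), ENNReal.ofReal (WW (kk j * p) z) := by
        apply setLIntegral_mono (WW_meas _)
        intro z hz
        rw [mem_ball_zero_iff] at hz
        apply ENNReal.ofReal_le_ofReal
        have h4 := WW_ge (a := kk j * p) hkp (j := j + 1) (z := z) (R_small (by linarith)) (by
          have := Real.exp_pos 3
          linarith) le_rfl (by linarith)
        refine le_trans ?_ h4
        rw [Real.log_one, zero_add]
        apply Real.exp_le_exp.mpr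
        linarith
    _ ≤ _ := lintegral_mono_set (ball_subset_ball (by linarith))

theorem Q_le (j : ℕ) {p : ℝ} (hp : 2 < p) :
    ∫⁻ v in Om, FA j (v 0) * ENNReal.ofReal (‖v 1‖ ^ (kk j * p)) ≤
    JJ (kk j * p) * ENNReal.ofReal (Real.pi * RR j ^ 2 * (2 * (tt (j + 1) / RR j)) ^ ((kk j * p + 2) / NN (j + 1))) := by
  have hk := kk_ge j
  have ht := tt_pos (j + 1)
  have hR := RR_pos j
  have hR1 := RR_lt_one j
  have hpi := Real.pi_pos
  have hkp : 0 ≤ kk j * p := by positivity
  have hN := NN_pos' (j + 1)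
  refine (upper (FA j) (FA_meas j) (a := kk j * p) hkp).trans ?_
  gcongr
  set q := (kk j * p + 2) / NN (j + 1) with hq
  have hq0 : 0 ≤ q := by rw [hq]; positivity
  calc ∫⁻ z in ball (0:ℂ) (Real.exp 3), FA j z * ENNReal.ofReal (WW (kk j * p) z)
      ≤ ∫⁻ z : ℂ, FA j z * ENNReal.ofReal (WW (kk j * p) z) := setLIntegral_le_lintegral _ _
    _ ≤ ∫⁻ z : ℂ, (ball (0:ℂ) (RR j)).indicator (fun _ => ENNReal.ofReal ((2 * (tt (j + 1) / RR j)) ^ q)) z := by
        apply lintegral_mono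
        intro z
        by_cases hz : ‖z‖ ∈ AA j
        · have hz' := hz
          obtain ⟨hz1, hz2⟩ := hz'
          have h3 : FA j z = 1 := by
            unfold FA
            rw [indicator_of_mem hz]; rfl
          have h4 : z ∈ ball (0:ℂ) (RR j) := mem_ball_zero_iff.mpr hz2
          have hz0 : 0 < ‖z‖ := by linarith
          simp only [indicator_of_mem h4, h3, one_mul]
          apply ENNReal.ofReal_le_ofReal
          refine (WW_le hkp (j + 1) (z := z) (by have := Real.exp_pos 3; linarith) (norm_pos_iff.mp hz0)).trans ?_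
          apply Real.rpow_le_rpow (by positivity) _ hq0
          rw [div_le_iff₀ hz0]
          have : 2 * (tt (j + 1) / RR j) * ‖z‖ = tt (j + 1) * (‖z‖ / (RR j / 2)) := by field_simp
          rw [this]
          have h5 : 1 ≤ ‖z‖ / (RR j / 2) := by rw [one_le_div (by positivity)]; exact hz1.le
          nlinarith
        · have h3 : FA j z = 0 := by
            unfold FA
            rw [indicator_of_notMem hz]
          show FA j z * ENNReal.ofReal (WW (kk j * p) z) ≤ _
          rw [h3, zero_mul]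
          exact zero_le
    _ = ENNReal.ofReal ((2 * (tt (j + 1) / RR j)) ^ q) * volume (ball (0:ℂ) (RR j)) := by
        rw [lintegral_indicator measurableSet_ball, setLIntegral_const]
    _ = _ := by
        rw [vol_ball _ hR.le, ← ENNReal.ofReal_mul (by positivity)]
        congr 1
        ring

end Pool.Agent.H788R3.Bp
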