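import Pool.Agent.H788R3.Bp.Est

set_option autoImplicit false
open MeasureTheory Set Metric Complex Filter Topology
open scoped ENNReal

namespace Pool.Agent.H788R3.Bp

open Pool.Agent.H788R3.Sq

noncomputable def F1 (j : ℕ) : ℝ → ℝ := (AA j).indicator 1

theorem F1_meas (j : ℕ) : Measurable (F1 j) := measurable_one.indicator measurableSet_Ioo

theorem F1_nonneg (j : ℕ) (s : ℝ) : 0 ≤ F1 j s := indicator_nonneg (fun _ _ => zero_le_one) s

theorem F1_le_one (j : ℕ) (s : ℝ) : F1 j s ≤ 1 := by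
  unfold F1
  by_cases hs : s ∈ AA j
  · rw [indicator_of_mem hs]; rfl
  · rw [indicator_of_notMem hs]; exact zero_le_one

theorem FA_eq (j : ℕ) (z : ℂ) : FA j z = ENNReal.ofReal (F1 j ‖z‖) := by
  unfold FA F1
  by_cases hs : ‖z‖ ∈ AA j
  · rw [indicator_of_mem hs, indicator_of_mem hs]; simp
  · rw [indicator_of_notMem hs, indicator_of_notMem hs]; simp

noncomputable def Ar (j : ℕ) : ℝ := ∫ v in Om, F1 j ‖v 0‖ * ‖v 1‖ ^ (2 * kk j)

noncomputable def Dr (j : ℕ) : ℝ := ∫ v in Om, ‖v 1‖ ^ (2 * kk j)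

theorem bdd_int {u : E2 → ℝ} (hu : Measurable u) {B : ℝ} (hB : ∀ v ∈ Om, |u v| ≤ B) :
    Integrable u (volume.restrict Om) := by
  apply Integrable.of_bound hu.aestronglyMeasurable B
  filter_upwards [ae_restrict_mem Om_open.measurableSet] with v hv
  rw [Real.norm_eq_abs]
  exact hB v hv

theorem m0 : Measurable (fun v : E2 => ‖v 0‖) := (measurable_pi_apply 0).norm
theorem m1 : Measurable (fun v : E2 => ‖v 1‖) := (measurable_pi_apply 1).norm

theorem D_int (j : ℕ) : Integrable (fun v : E2 => ‖v 1‖ ^ (2 * kk j)) (volume.restrict Om) := by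
  apply bdd_int (m1.pow_const _) (B := 1)
  intro v hv
  rw [abs_of_nonneg (by positivity)]
  exact pow_le_one₀ (norm_nonneg _) (Om_w' hv).le

theorem A_int (j : ℕ) : Integrable (fun v : E2 => F1 j ‖v 0‖ * ‖v 1‖ ^ (2 * kk j)) (volume.restrict Om) := by
  apply bdd_int (show Measurable (fun v : E2 => F1 j ‖v 0‖ * ‖v 1‖ ^ (2 * kk j)) from
    ((F1_meas j).comp m0).mul (m1.pow_const _)) (B := 1)
  intro v hv
  rw [abs_of_nonneg (mul_nonneg (F1_nonneg _ _) (by positivity))]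
  exact mul_le_one₀ (F1_le_one _ _) (by positivity) (pow_le_one₀ (norm_nonneg _) (Om_w' hv).le)

theorem cast_pow (x : ℝ) (hx : 0 ≤ x) (k : ℕ) : x ^ (2 * k : ℝ) = x ^ (2 * k) := by
  rw [← Real.rpow_natCast]
  push_cast
  rfl

theorem ofReal_Ar (j : ℕ) : ENNReal.ofReal (Ar j) = ∫⁻ v in Om, FA j (v 0) * ENNReal.ofReal (‖v 1‖ ^ (2 * kk j : ℝ)) := by
  unfold Ar
  rw [ofReal_integral_eq_lintegral_ofReal (A_int j)
    (Eventually.of_forall fun v => mul_nonneg (F1_nonneg _ _) (by positivity))]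
  apply lintegral_congr
  intro v
  rw [FA_eq, ENNReal.ofReal_mul (F1_nonneg _ _), cast_pow _ (norm_nonneg _)]

theorem ofReal_Dr (j : ℕ) : ENNReal.ofReal (Dr j) = ∫⁻ v in Om, ENNReal.ofReal (‖v 1‖ ^ (2 * kk j : ℝ)) := by
  unfold Dr
  rw [ofReal_integral_eq_lintegral_ofReal (D_int j)
    (Eventually.of_forall fun v => by positivity)]
  apply lintegral_congr
  intro v
  rw [cast_pow _ (norm_nonneg _)]

noncomputable def cj (j : ℕ) : ℝ := Ar j / Dr j

theorem Ar_pos (j : ℕ) : (JJ (2 * kk j)).toReal * (Real.pi * Real.exp (-4) * tt (j + 1) ^ 2 / 16) ≤ Ar j := by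
  have h1 := A_ge j
  have hk := kk_ge j
  have hJ : JJ (2 * kk j) ≠ ⊤ := (JJ_lt_top (by linarith)).ne
  have ht := tt_pos (j + 1)
  have hpi := Real.pi_pos
  rw [← ofReal_Ar, ← ENNReal.ofReal_toReal hJ, ← ENNReal.ofReal_mul ENNReal.toReal_nonneg] at h1
  have hA : 0 ≤ Ar j := integral_nonneg (fun v => mul_nonneg (F1_nonneg _ _) (by positivity))
  exact (ENNReal.ofReal_le_ofReal_iff hA).mp h1

theorem Dr_le (j : ℕ) : Dr j ≤ (JJ (2 * kk j)).toReal * (Real.pi * tt (j + 1) ^ 2 * (25 + 24 * 3 ^ j)) := by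
  have h1 := D_le j
  have hk := kk_ge j
  have hJ : JJ (2 * kk j) ≠ ⊤ := (JJ_lt_top (by linarith)).ne
  have ht := tt_pos (j + 1)
  have hpi := Real.pi_pos
  rw [← ofReal_Dr, ← ENNReal.ofReal_toReal hJ, ← ENNReal.ofReal_mul ENNReal.toReal_nonneg] at h1
  exact (ENNReal.ofReal_le_ofReal_iff (mul_nonneg ENNReal.toReal_nonneg (by positivity))).mp h1

theorem J_pos' (j : ℕ) : 0 < (JJ (2 * kk j)).toReal := by
  have hk := kk_ge j
  exact ENNReal.toReal_pos (JJ_pos _).ne' (JJ_lt_top (by linarith)).ne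

theorem Ar_le_Dr (j : ℕ) : Ar j ≤ Dr j := by
  unfold Ar Dr
  apply integral_mono (A_int j) (D_int j)
  intro v
  exact mul_le_of_le_one_left (by positivity) (F1_le_one _ _)

theorem Ar_pos' (j : ℕ) : 0 < Ar j := by
  have h1 := Ar_pos j
  have h2 := J_pos' j
  have ht := tt_pos (j + 1)
  have hpi := Real.pi_pos
  have h3 : 0 < (JJ (2 * kk j)).toReal * (Real.pi * Real.exp (-4) * tt (j + 1) ^ 2 / 16) := by positivity
  linarith

theorem Dr_pos (j : ℕ) : 0 < Dr j := (Ar_pos' j).trans_le (Ar_le_Dr j)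

theorem cj_pos (j : ℕ) : 0 < cj j := div_pos (Ar_pos' j) (Dr_pos j)

theorem cj_ge (j : ℕ) : Real.exp (-4) / (16 * (25 + 24 * 3 ^ j)) ≤ cj j := by
  have h1 := Ar_pos j
  have h2 := Dr_le j
  have h3 := J_pos' j
  have ht := tt_pos (j + 1)
  have hpi := Real.pi_pos
  have h4 := Dr_pos j
  unfold cj
  rw [div_le_div_iff₀ (by positivity) h4]
  calc Real.exp (-4) * Dr j
      ≤ Real.exp (-4) * ((JJ (2 * kk j)).toReal * (Real.pi * tt (j + 1) ^ 2 * (25 + 24 * 3 ^ j))) :=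
        mul_le_mul_of_nonneg_left h2 (Real.exp_pos _).le
    _ = ((JJ (2 * kk j)).toReal * (Real.pi * Real.exp (-4) * tt (j + 1) ^ 2 / 16)) * (16 * (25 + 24 * 3 ^ j)) := by ring
    _ ≤ _ := mul_le_mul_of_nonneg_right h1 (by positivity)

/-- test function and its projection -/
noncomputable def ff (j : ℕ) (v : E2) : ℂ := (F1 j ‖v 0‖ : ℂ) * v 1 ^ kk j

noncomputable def gg (j : ℕ) (v : E2) : ℂ := (cj j : ℂ) * v 1 ^ kk j

theorem ff_meas (j : ℕ) : Measurable (ff j) :=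
  (Complex.measurable_ofReal.comp ((F1_meas j).comp m0)).mul ((measurable_pi_apply 1).pow_const _)

theorem gg_meas (j : ℕ) : Measurable (gg j) :=
  measurable_const.mul ((measurable_pi_apply 1).pow_const _)

theorem ff_memLp (j : ℕ) (q : ℝ≥0∞) : MemLp (ff j) q (volume.restrict Om) := by
  apply MemLp.of_bound (ff_meas j).aestronglyMeasurable 1
  filter_upwards [ae_restrict_mem Om_open.measurableSet] with v hv
  unfold ff
  rw [norm_mul, norm_pow, Complex.norm_real, Real.norm_of_nonneg (F1_nonneg _ _)]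
  exact mul_le_one₀ (F1_le_one _ _) (by positivity) (pow_le_one₀ (norm_nonneg _) (Om_w' hv).le)

theorem gg_memLp (j : ℕ) (q : ℝ≥0∞) : MemLp (gg j) q (volume.restrict Om) := by
  apply MemLp.of_bound (gg_meas j).aestronglyMeasurable (cj j)
  filter_upwards [ae_restrict_mem Om_open.measurableSet] with v hv
  unfold gg
  rw [norm_mul, norm_pow, Complex.norm_real, Real.norm_of_nonneg (cj_pos j).le]
  exact mul_le_of_le_one_right (cj_pos j).le (pow_le_one₀ (norm_nonneg _) (Om_w' hv).le)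

theorem gg_hol (j : ℕ) : DifferentiableOn ℂ (gg j) Om := by
  apply Differentiable.differentiableOn
  unfold gg
  fun_prop

theorem orth (j : ℕ) (h : E2 → ℂ) (hh : DifferentiableOn ℂ h Om) (hL2 : MemLp h 2 (volume.restrict Om)) :
    ∫ x in Om, (ff j x - gg j x) * starRingEnd ℂ (h x) = 0 := by
  obtain ⟨a, ha⟩ := pairing (kk j) h hh hL2
  have h1 := (ha (fun s => F1 j s - cj j) ((F1_meas j).sub_const _) ⟨1 + cj j, fun s => by
    have h2 := F1_nonneg j s
    have h3 := F1_le_one j s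
    have h4 := cj_pos j
    rw [abs_le]
    constructor <;> linarith⟩).2
  have h2 : ∀ x : E2, (ff j x - gg j x) * starRingEnd ℂ (h x)
      = ((F1 j ‖x 0‖ - cj j : ℝ) : ℂ) * x 1 ^ kk j * starRingEnd ℂ (h x) := by
    intro x
    unfold ff gg
    push_cast
    ring
  simp_rw [h2]
  rw [h1]
  have h3 : ∀ v : E2, ((F1 j ‖v 0‖ - cj j : ℝ) : ℂ) * (‖v 1‖ ^ (2 * kk j) : ℝ)
      = ((F1 j ‖v 0‖ * ‖v 1‖ ^ (2 * kk j) - cj j * ‖v 1‖ ^ (2 * kk j) : ℝ) : ℂ) := by
    intro v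
    push_cast
    ring
  simp_rw [h3]
  rw [integral_complex_ofReal, integral_sub (A_int j) ((D_int j).const_mul _), integral_const_mul]
  have h4 : Ar j - cj j * Dr j = 0 := by
    unfold cj
    rw [div_mul_cancel₀ _ (Dr_pos j).ne', sub_self]
  have h5 : (∫ v in Om, F1 j ‖v 0‖ * ‖v 1‖ ^ (2 * kk j)) - cj j * ∫ v in Om, ‖v 1‖ ^ (2 * kk j) = 0 := h4
  rw [h5]
  simp

theorem pow_enorm {p : ℝ} (hp : 2 < p) (j : ℕ) (v : E2) (c : ℝ) (hc : 0 ≤ c) :
    ‖(c : ℂ) * v 1 ^ kk j‖ₑ ^ p = ENNReal.ofReal (c ^ p) * ENNReal.ofReal (‖v 1‖ ^ (kk j * p)) := by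
  rw [← ofReal_norm, norm_mul, norm_pow, Complex.norm_real, Real.norm_of_nonneg hc,
    ENNReal.ofReal_rpow_of_nonneg (by positivity) (by linarith), Real.mul_rpow hc (by positivity),
    ENNReal.ofReal_mul (by positivity)]
  congr 2
  rw [Real.rpow_mul (norm_nonneg _), Real.rpow_natCast]

theorem norm_ineq {p : ℝ} (hp : 2 < p) (j : ℕ) (C : NNReal)
    (h : eLpNorm (gg j) (ENNReal.ofReal p) (volume.restrict Om)
      ≤ (C : ENNReal) * eLpNorm (ff j) (ENNReal.ofReal p) (volume.restrict Om)) :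
    ENNReal.ofReal (cj j ^ p) * ∫⁻ v in Om, ENNReal.ofReal (‖v 1‖ ^ (kk j * p))
      ≤ ENNReal.ofReal ((C:ℝ) ^ p) * ∫⁻ v in Om, FA j (v 0) * ENNReal.ofReal (‖v 1‖ ^ (kk j * p)) := by
  have hp0 : 0 < p := by linarith
  have hne : ENNReal.ofReal p ≠ 0 := (ENNReal.ofReal_pos.mpr hp0).ne'
  rw [eLpNorm_eq_lintegral_rpow_enorm_toReal hne ENNReal.ofReal_ne_top,
    eLpNorm_eq_lintegral_rpow_enorm_toReal hne ENNReal.ofReal_ne_top, ENNReal.toReal_ofReal hp0.le] at h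
  have h2 := ENNReal.rpow_le_rpow h hp0.le
  rw [ENNReal.mul_rpow_of_nonneg _ _ hp0.le, ← ENNReal.rpow_mul, ← ENNReal.rpow_mul,
    one_div, inv_mul_cancel₀ hp0.ne', ENNReal.rpow_one, ENNReal.rpow_one] at h2
  have e1 : ∫⁻ v in Om, ‖gg j v‖ₑ ^ p = ENNReal.ofReal (cj j ^ p) * ∫⁻ v in Om, ENNReal.ofReal (‖v 1‖ ^ (kk j * p)) := by
    rw [← lintegral_const_mul _ (m1.pow_const _).ennreal_ofReal]
    apply lintegral_congr
    intro v
    exact pow_enorm hp j v _ (cj_pos j).le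
  have e2 : ∫⁻ v in Om, ‖ff j v‖ₑ ^ p = ∫⁻ v in Om, FA j (v 0) * ENNReal.ofReal (‖v 1‖ ^ (kk j * p)) := by
    apply lintegral_congr
    intro v
    have := pow_enorm hp j v _ (F1_nonneg j ‖v 0‖)
    unfold ff
    rw [this, FA_eq]
    congr 2
    unfold F1
    by_cases hs : ‖v 0‖ ∈ AA j
    · rw [indicator_of_mem hs]; simp
    · rw [indicator_of_notMem hs]; exact Real.zero_rpow hp0.ne'
  rw [e1, e2] at h2
  have e3 : (C : ℝ≥0∞) ^ p = ENNReal.ofReal ((C:ℝ) ^ p) := by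
    rw [← ENNReal.ofReal_rpow_of_nonneg C.coe_nonneg hp0.le, ENNReal.ofReal_coe_nnreal]
  rw [e3] at h2
  exact h2

theorem real_ineq {p : ℝ} (hp : 2 < p) (j : ℕ) (C : NNReal)
    (h : eLpNorm (gg j) (ENNReal.ofReal p) (volume.restrict Om)
      ≤ (C : ENNReal) * eLpNorm (ff j) (ENNReal.ofReal p) (volume.restrict Om)) :
    cj j ^ p * (Real.pi * tt (j + 1) ^ 2 * Real.exp (-(2 * p)))
      ≤ (C:ℝ) ^ p * (Real.pi * RR j ^ 2 * (2 * (tt (j + 1) / RR j)) ^ ((kk j * p + 2) / NN (j + 1))) := by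
  have hk := kk_ge j
  have hkp : 0 ≤ kk j * p := by
    have : 0 < p := by linarith
    positivity
  have h1 := norm_ineq hp j C h
  have h2 := P_ge j hp
  have h3 := Q_le j hp
  have h4 : ENNReal.ofReal (cj j ^ p) * (JJ (kk j * p) * ENNReal.ofReal (Real.pi * tt (j + 1) ^ 2 * Real.exp (-(2 * p))))
      ≤ ENNReal.ofReal ((C:ℝ) ^ p) * (JJ (kk j * p) * ENNReal.ofReal (Real.pi * RR j ^ 2 * (2 * (tt (j + 1) / RR j)) ^ ((kk j * p + 2) / NN (j + 1)))) :=
    (mul_le_mul_right h2 _).trans (h1.trans (mul_le_mul_right h3 _))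
  have hJ0 := (JJ_pos (kk j * p)).ne'
  have hJt := (JJ_lt_top hkp).ne
  rw [mul_left_comm, mul_left_comm (ENNReal.ofReal ((C:ℝ) ^ p))] at h4
  have h5 := (ENNReal.mul_le_mul_iff_right hJ0 hJt).mp h4
  have hc := cj_pos j
  have hR := RR_pos j
  have ht := tt_pos (j + 1)
  have hpi := Real.pi_pos
  rw [← ENNReal.ofReal_mul (by positivity), ← ENNReal.ofReal_mul (by positivity)] at h5
  exact (ENNReal.ofReal_le_ofReal_iff (by positivity)).mp h5

theorem c_bound {p : ℝ} (hp : 2 < p) (j : ℕ) (C : NNReal)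
    (h : eLpNorm (gg j) (ENNReal.ofReal p) (volume.restrict Om)
      ≤ (C : ENNReal) * eLpNorm (ff j) (ENNReal.ofReal p) (volume.restrict Om)) :
    cj j * Real.exp (-2) * Real.exp ((2 * 3 ^ j - 1) * ((p - 2) / (2 * p))) ≤ 2 * C := by
  have hp0 : 0 < p := by linarith
  have hk := kk_ge j
  have hN := NN_pos' (j + 1)
  have h1 := real_ineq hp j C h
  have hc := cj_pos j
  have hR := RR_pos j
  have ht := tt_pos (j + 1)
  have hpi := Real.pi_pos
  have hC : (0:ℝ) ≤ C := C.coe_nonneg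
  set x := tt (j + 1) / RR j with hx
  have hx0 : 0 < x := by positivity
  have hx1 : x ≤ 1 := ratio_le_one j
  have hxe : x = Real.exp (-(2 * 3 ^ j - 1)) := ratio j
  set q := (kk j * p + 2) / NN (j + 1) with hq
  have hq2 : 2 + (p - 2) / 2 ≤ q := by
    rw [hq, le_div_iff₀ hN, ← kk_add]
    nlinarith
  have hqp : q ≤ p := by
    rw [hq, div_le_iff₀ hN, ← kk_add]
    nlinarith
  have ht2 : tt (j + 1) ^ 2 = x ^ 2 * RR j ^ 2 := by
    rw [hx]; field_simp
  rw [ht2] at h1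
  have h2 : cj j ^ p * (x ^ 2 * Real.exp (-(2 * p))) ≤ (C:ℝ) ^ p * (2 * x) ^ q := by
    have h3 : 0 < Real.pi * RR j ^ 2 := by positivity
    have h4 : (cj j ^ p * (x ^ 2 * Real.exp (-(2 * p)))) * (Real.pi * RR j ^ 2)
        ≤ ((C:ℝ) ^ p * (2 * x) ^ q) * (Real.pi * RR j ^ 2) := by
      calc (cj j ^ p * (x ^ 2 * Real.exp (-(2 * p)))) * (Real.pi * RR j ^ 2)
          = cj j ^ p * (Real.pi * (x ^ 2 * RR j ^ 2) * Real.exp (-(2 * p))) := by ring
        _ ≤ _ := h1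
        _ = _ := by ring
    exact le_of_mul_le_mul_right h4 h3
  have h5 : (2 * x) ^ q ≤ 2 ^ p * (x ^ 2 * x ^ ((p - 2) / 2)) := by
    rw [Real.mul_rpow (by norm_num) hx0.le]
    have h6 : (2:ℝ) ^ q ≤ 2 ^ p := Real.rpow_le_rpow_of_exponent_le (by norm_num) hqp
    have h7 : x ^ q ≤ x ^ 2 * x ^ ((p - 2) / 2) := by
      calc x ^ q ≤ x ^ (2 + (p - 2) / 2) := Real.rpow_le_rpow_of_exponent_ge hx0 hx1 hq2
        _ = x ^ 2 * x ^ ((p - 2) / 2) := by
            rw [Real.rpow_add hx0]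
            norm_cast
    exact mul_le_mul h6 h7 (by positivity) (by positivity)
  have h8 : cj j ^ p * Real.exp (-(2 * p)) ≤ (2 * C) ^ p * x ^ ((p - 2) / 2) := by
    have h9 : (cj j ^ p * Real.exp (-(2 * p))) * x ^ 2 ≤ ((2 * C) ^ p * x ^ ((p - 2) / 2)) * x ^ 2 := by
      calc (cj j ^ p * Real.exp (-(2 * p))) * x ^ 2 = cj j ^ p * (x ^ 2 * Real.exp (-(2 * p))) := by ring
        _ ≤ (C:ℝ) ^ p * (2 * x) ^ q := h2
        _ ≤ (C:ℝ) ^ p * (2 ^ p * (x ^ 2 * x ^ ((p - 2) / 2))) := by gcongr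
        _ = _ := by
            rw [Real.mul_rpow (by norm_num) hC]
            ring
    exact le_of_mul_le_mul_right h9 (by positivity)
  -- take p-th roots
  have e1 : cj j ^ p * Real.exp (-(2 * p)) = (cj j * Real.exp (-2)) ^ p := by
    rw [Real.mul_rpow hc.le (Real.exp_pos _).le, ← Real.exp_mul]
    congr 2
    ring
  have e2 : x ^ ((p - 2) / 2) = (Real.exp (-((2 * 3 ^ j - 1) * ((p - 2) / (2 * p))))) ^ p := by
    rw [hxe, ← Real.exp_mul, ← Real.exp_mul]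
    congr 1
    field_simp
  rw [e1, e2, ← Real.mul_rpow (by positivity) (Real.exp_pos _).le] at h8
  have h10 := (Real.rpow_le_rpow_iff (by positivity) (by positivity) hp0).mp h8
  calc cj j * Real.exp (-2) * Real.exp ((2 * 3 ^ j - 1) * ((p - 2) / (2 * p)))
      ≤ (2 * C * Real.exp (-((2 * 3 ^ j - 1) * ((p - 2) / (2 * p))))) * Real.exp ((2 * 3 ^ j - 1) * ((p - 2) / (2 * p))) :=
        mul_le_mul_of_nonneg_right h10 (Real.exp_pos _).le
    _ = 2 * C := by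
        rw [mul_assoc, ← Real.exp_add, neg_add_cancel, Real.exp_zero, mul_one]

/-- no uniform constant -/
theorem no_bound {p : ℝ} (hp : 2 < p) (C : NNReal)
    (h : ∀ j, eLpNorm (gg j) (ENNReal.ofReal p) (volume.restrict Om)
      ≤ (C : ENNReal) * eLpNorm (ff j) (ENNReal.ofReal p) (volume.restrict Om)) : False := by
  have hp0 : 0 < p := by linarith
  set s := (p - 2) / (2 * p) with hs
  have hs0 : 0 < s := by
    rw [hs]
    apply div_pos <;> linarith
  have hC : (0:ℝ) ≤ C := C.coe_nonneg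
  set K : ℝ := 32 * 49 * C * Real.exp 6 with hK
  have hK0 : 0 ≤ K := by rw [hK]; positivity
  have key : ∀ j : ℕ, Real.exp (s * 3 ^ j) ≤ K * 3 ^ j := by
    intro j
    have h1 := c_bound hp j C (h j)
    rw [← hs] at h1
    have h2 := cj_ge j
    have hX : (1:ℝ) ≤ 3 ^ j := one_le_pow₀ (by norm_num)
    have h3 : Real.exp (s * 3 ^ j) ≤ Real.exp ((2 * 3 ^ j - 1) * s) := by
      apply Real.exp_le_exp.mpr
      nlinarith
    have h4 : Real.exp (-4) / (16 * (49 * 3 ^ j)) ≤ cj j := by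
      refine le_trans ?_ h2
      apply div_le_div_of_nonneg_left (Real.exp_pos _).le (by positivity)
      linarith
    have h5 : Real.exp (-4) / (16 * (49 * 3 ^ j)) * Real.exp (-2) * Real.exp (s * 3 ^ j) ≤ 2 * C := by
      refine le_trans ?_ h1
      have hcj := cj_pos j
      gcongr
    have h6 : Real.exp (-4) * Real.exp (-2) * Real.exp 6 = 1 := by
      rw [← Real.exp_add, ← Real.exp_add]
      norm_num
    have h7 : Real.exp (-4) / (16 * (49 * 3 ^ j)) * Real.exp (-2) * Real.exp (s * 3 ^ j) * (16 * (49 * 3 ^ j) * Real.exp 6)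
        = Real.exp (s * 3 ^ j) := by
      have h8 : (16 * (49 * 3 ^ j) : ℝ) ≠ 0 := by positivity
      calc Real.exp (-4) / (16 * (49 * 3 ^ j)) * Real.exp (-2) * Real.exp (s * 3 ^ j) * (16 * (49 * 3 ^ j) * Real.exp 6)
          = (Real.exp (-4) * Real.exp (-2) * Real.exp 6) * Real.exp (s * 3 ^ j) * ((16 * (49 * 3 ^ j)) / (16 * (49 * 3 ^ j))) := by ring
        _ = _ := by rw [h6, div_self h8, one_mul, mul_one]
    rw [← h7]
    calc Real.exp (-4) / (16 * (49 * 3 ^ j)) * Real.exp (-2) * Real.exp (s * 3 ^ j) * (16 * (49 * 3 ^ j) * Real.exp 6)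
        ≤ (2 * C) * (16 * (49 * 3 ^ j) * Real.exp 6) := mul_le_mul_of_nonneg_right h5 (by positivity)
      _ = K * 3 ^ j := by rw [hK]; ring
  obtain ⟨j, hj⟩ := pow_unbounded_of_one_lt (2 * K / s ^ 2) (by norm_num : (1:ℝ) < 3)
  have h1 := key j
  have hX : (1:ℝ) ≤ 3 ^ j := one_le_pow₀ (by norm_num)
  have h2 := Real.quadratic_le_exp_of_nonneg (x := s * 3 ^ j) (by positivity)
  have h3 : (s * 3 ^ j) ^ 2 / 2 < K * 3 ^ j := by
    have : 0 < s * (3:ℝ) ^ j := by positivity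
    linarith
  rw [div_lt_iff₀ (by positivity)] at hj
  have h4 : (s * 3 ^ j) ^ 2 / 2 = (3 ^ j * s ^ 2) / 2 * 3 ^ j := by ring
  rw [h4] at h3
  have h5 := lt_of_mul_lt_mul_right h3 (by positivity)
  linarith

end Pool.Agent.H788R3.Bp
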