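import Pool.Agent.H788R3.Bp.Domain

set_option autoImplicit false
open MeasureTheory Set Metric Complex Filter Topology Asymptotics

namespace Pool.Agent.H788R3.Bp

open Pool.Agent.H788R3.Sq

/-- second order Taylor remainder -/
theorem taylor_two {h : ℂ → ℝ} (hh : ContDiff ℝ 2 h) :
    (fun x : ℂ => h x - h 0 - fderiv ℝ h 0 x - (1 / 2) * fderiv ℝ (fderiv ℝ h) 0 x x) =o[𝓝 0]
      fun x : ℂ => ‖x‖ ^ 2 := by
  set B := fderiv ℝ (fderiv ℝ h) 0 with hB
  have hd1 : ContDiff ℝ 1 (fderiv ℝ h) := hh.fderiv_right (by norm_num)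
  have hBd : HasFDerivAt (fderiv ℝ h) B 0 := (hd1.differentiable (by norm_num) 0).hasFDerivAt
  have hsymm : ∀ u v : ℂ, B u v = B v u := by
    intro u v
    have : IsSymmSndFDerivAt ℝ h 0 := (hh.contDiffAt).isSymmSndFDerivAt (by simp)
    exact this u v
  have hdiff : Differentiable ℝ h := hh.differentiable (by norm_num)
  rw [isLittleO_iff]
  intro ε hε
  have ho := hBd.isLittleO
  rw [isLittleO_iff] at ho
  obtain ⟨δ, hδ, hball⟩ := Metric.eventually_nhds_iff_ball.mp (ho hε)
  rw [Metric.eventually_nhds_iff_ball]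
  refine ⟨δ, hδ, fun x hx => ?_⟩
  set R : ℂ → ℝ := fun x => h x - h 0 - fderiv ℝ h 0 x - (1 / 2) * B x x with hR
  have hRd : ∀ y : ℂ, HasFDerivAt R (fderiv ℝ h y - fderiv ℝ h 0 - B y) y := by
    intro y
    have h1 : HasFDerivAt h (fderiv ℝ h y) y := (hdiff y).hasFDerivAt
    have h2 : HasFDerivAt (fun x : ℂ => fderiv ℝ h 0 x) (fderiv ℝ h 0) y := (fderiv ℝ h 0).hasFDerivAt
    have h3 : HasFDerivAt (fun x : ℂ => B x x) (B.precompR ℂ y (ContinuousLinearMap.id ℝ ℂ) + B.precompL ℂ (ContinuousLinearMap.id ℝ ℂ) y) y := by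
      exact B.hasFDerivAt_of_bilinear (hasFDerivAt_id y) (hasFDerivAt_id y)
    have h4 := ((h1.sub_const (h 0)).sub h2).sub (h3.const_mul (1 / 2))
    have h5 : (fderiv ℝ h y - fderiv ℝ h 0 - (1 / 2 : ℝ) • (B.precompR ℂ y (ContinuousLinearMap.id ℝ ℂ) +
        B.precompL ℂ (ContinuousLinearMap.id ℝ ℂ) y)) = fderiv ℝ h y - fderiv ℝ h 0 - B y := by
      ext v
      all_goals
        simp [ContinuousLinearMap.precompR_apply, ContinuousLinearMap.precompL_apply]
        rw [hsymm _ y]
        ring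
    rw [h5] at h4
    exact h4
  have hseg : ∀ y ∈ segment ℝ (0:ℂ) x, ‖fderiv ℝ h y - fderiv ℝ h 0 - B y‖ ≤ ε * ‖x‖ := by
    intro y hy
    have hyx : ‖y‖ ≤ ‖x‖ := by
      obtain ⟨s, t, hs, ht, hst, rfl⟩ := hy
      rw [smul_zero, zero_add, norm_smul, Real.norm_of_nonneg ht]
      exact mul_le_of_le_one_left (norm_nonneg _) (by linarith)
    have hyb : y ∈ ball (0:ℂ) δ := by
      rw [mem_ball_zero_iff] at hx ⊢
      linarith
    have := hball y hyb
    rw [sub_zero] at this
    calc ‖fderiv ℝ h y - fderiv ℝ h 0 - B y‖ ≤ ε * ‖y‖ := this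
      _ ≤ ε * ‖x‖ := by gcongr
  have hmv := (convex_segment (0:ℂ) x).norm_image_sub_le_of_norm_hasFDerivWithin_le (f := R)
    (fun y _ => (hRd y).hasFDerivWithinAt) hseg (left_mem_segment ℝ 0 x) (right_mem_segment ℝ 0 x)
  have hR0 : R 0 = 0 := by simp [hR]
  rw [hR0, sub_zero, sub_zero] at hmv
  calc ‖R x‖ ≤ ε * ‖x‖ * ‖x‖ := hmv
    _ = ε * ‖‖x‖ ^ 2‖ := by rw [Real.norm_of_nonneg (by positivity)]; ring

theorem avg_zero_of_pow {n : ℕ} (hn : 0 < n) (r : ℝ) :
    Real.circleAverage (fun z : ℂ => z ^ n) 0 r = 0 := by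
  have h : DiffContOnCl ℂ (fun z : ℂ => z ^ n) (ball 0 |r|) :=
    (differentiable_id.pow n).diffContOnCl
  rw [h.circleAverage]
  simp [hn.ne']

theorem avg_clm (l : ℂ →L[ℝ] ℝ) (n : ℕ) (hn : 0 < n) (r : ℝ) :
    Real.circleAverage (fun z : ℂ => l (z ^ n)) 0 r = 0 := by
  have hi : CircleIntegrable (fun z : ℂ => z ^ n) 0 r :=
    (continuous_pow n).continuousOn.circleIntegrable'
  have := l.circleAverage_comp_comm hi
  rw [avg_zero_of_pow hn, map_zero] at this
  exact this

/-- the sub-mean value property implies nonnegative Laplacian -/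
theorem laplacian_nonneg {h : ℂ → ℝ} (hh : ContDiff ℝ 2 h)
    (hsub : ∀ᶠ r in 𝓝[>] (0:ℝ), h 0 ≤ Real.circleAverage h 0 r) :
    0 ≤ fderiv ℝ (fderiv ℝ h) 0 1 1 + fderiv ℝ (fderiv ℝ h) 0 Complex.I Complex.I := by
  set B := fderiv ℝ (fderiv ℝ h) 0 with hB
  have hsymm : ∀ u v : ℂ, B u v = B v u := by
    intro u v
    have : IsSymmSndFDerivAt ℝ h 0 := (hh.contDiffAt).isSymmSndFDerivAt (by simp)
    exact this u v
  by_contra hneg
  push Not at hneg
  set Δ := B 1 1 + B Complex.I Complex.I with hΔ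
  have hto := taylor_two hh
  rw [isLittleO_iff] at hto
  have hε : 0 < -Δ / 8 := by linarith
  obtain ⟨δ, hδ, hball⟩ := Metric.eventually_nhds_iff_ball.mp (hto hε)
  have hev : ∀ᶠ r in 𝓝[>] (0:ℝ), r ∈ Ioo 0 δ := Ioo_mem_nhdsGT hδ
  obtain ⟨r, hr1, hr2⟩ := (hsub.and hev).exists
  have hr0 : 0 < r := hr2.1
  -- the comparison function
  have hBform : ∀ z : ℂ, B z z = ‖z‖ ^ 2 * (Δ / 2) + ((B 1 1 - B Complex.I Complex.I) / 2) * (z ^ 2).re
      + B 1 Complex.I * (z ^ 2).im := by
    intro z
    have hz : z = z.re • (1:ℂ) + z.im • Complex.I := by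
      simp [Complex.ext_iff]
    have h1 : B z z = z.re * (z.re * B 1 1 + z.im * B 1 Complex.I) + z.im * (z.re * B Complex.I 1 + z.im * B Complex.I Complex.I) := by
      conv_lhs => rw [hz]
      simp only [map_add, map_smul, ContinuousLinearMap.add_apply, ContinuousLinearMap.smul_apply, smul_eq_mul]
      ring
    rw [h1, hsymm Complex.I 1, hΔ, ← Complex.normSq_eq_norm_sq, Complex.normSq_apply, sq z, Complex.mul_re, Complex.mul_im]
    ring
  set l1 : ℂ →L[ℝ] ℝ := fderiv ℝ h 0 with hl1
  set l2 : ℂ →L[ℝ] ℝ := (1 / 2 : ℝ) • (((B 1 1 - B Complex.I Complex.I) / 2) • Complex.reCLM + (B 1 Complex.I) • Complex.imCLM) with hl2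
  have hup : ∀ z ∈ sphere (0:ℂ) |r|, h z ≤ h 0 + r ^ 2 * (Δ / 4) + (-Δ / 8) * r ^ 2 + (l1 (z ^ 1) + l2 (z ^ 2)) := by
    intro z hz
    have hz' : ‖z‖ = r := by simpa [abs_of_pos hr0] using hz
    have h1 := hball z (by rw [mem_ball_zero_iff, hz']; exact hr2.2)
    rw [hz', Real.norm_of_nonneg (by positivity : (0:ℝ) ≤ r ^ 2), Real.norm_eq_abs] at h1
    have h2 := (abs_le.mp h1).2
    have h3 := hBform z
    rw [hz'] at h3
    have h4 : l2 (z ^ 2) = (1 / 2) * (((B 1 1 - B Complex.I Complex.I) / 2) * (z ^ 2).re + B 1 Complex.I * (z ^ 2).im) := by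
      simp [hl2]
      ring
    rw [pow_one, h4]
    have h5 : h z - h 0 - l1 z - 1 / 2 * (B z) z ≤ -Δ / 8 * r ^ 2 := h2
    rw [h3] at h5
    linarith
  have hc1 : Continuous (fun z : ℂ => h 0 + r ^ 2 * (Δ / 4) + (-Δ / 8) * r ^ 2 + (l1 (z ^ 1) + l2 (z ^ 2))) := by
    fun_prop
  have havg : Real.circleAverage h 0 r ≤ h 0 + r ^ 2 * (Δ / 4) + (-Δ / 8) * r ^ 2 := by
    calc Real.circleAverage h 0 r ≤ Real.circleAverage (fun z : ℂ => h 0 + r ^ 2 * (Δ / 4) + (-Δ / 8) * r ^ 2 + (l1 (z ^ 1) + l2 (z ^ 2))) 0 r :=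
          Real.circleAverage_mono (hh.continuous.continuousOn.circleIntegrable') (hc1.continuousOn.circleIntegrable') hup
      _ = _ := by
          have i0 : CircleIntegrable (fun _ : ℂ => h 0 + r ^ 2 * (Δ / 4) + (-Δ / 8) * r ^ 2) 0 r :=
            continuousOn_const.circleIntegrable'
          have i1 : CircleIntegrable (fun z : ℂ => l1 (z ^ 1)) 0 r :=
            (by fun_prop : Continuous (fun z : ℂ => l1 (z ^ 1))).continuousOn.circleIntegrable'
          have i2 : CircleIntegrable (fun z : ℂ => l2 (z ^ 2)) 0 r :=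
            (by fun_prop : Continuous (fun z : ℂ => l2 (z ^ 2))).continuousOn.circleIntegrable'
          have i12 : CircleIntegrable (fun z : ℂ => l1 (z ^ 1) + l2 (z ^ 2)) 0 r := i1.add i2
          rw [Real.circleAverage_fun_add i0 i12, Real.circleAverage_fun_add i1 i2,
            Real.circleAverage_const, avg_clm l1 1 one_pos, avg_clm l2 2 two_pos]
          ring
  have h6 : 0 < r ^ 2 := by positivity
  nlinarith

/-- restriction to a complex line -/
theorem line_second {ρ : E2 → ℝ} (hρ : ContDiff ℝ 2 ρ) (x v : E2) (a b : ℂ) :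
    fderiv ℝ (fderiv ℝ (fun s : ℂ => ρ (x + s • v))) 0 a b = fderiv ℝ (fderiv ℝ ρ) x (a • v) (b • v) := by
  set l : ℂ →L[ℝ] E2 := (ContinuousLinearMap.toSpanSingleton ℂ v).restrictScalars ℝ with hl
  have hlv : ∀ s : ℂ, l s = s • v := by intro s; simp [hl]
  have hline : ∀ s : ℂ, HasFDerivAt (fun s : ℂ => x + s • v) l s := by
    intro s
    have h1 : HasFDerivAt (fun s : ℂ => l s) l s := l.hasFDerivAt
    have h2 := h1.const_add x
    have h3 : (fun s : ℂ => x + l s) = fun s : ℂ => x + s • v := by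
      ext1 s; rw [hlv]
    rw [h3] at h2
    exact h2
  have hd1 : Differentiable ℝ ρ := hρ.differentiable (by norm_num)
  have hf : fderiv ℝ (fun s : ℂ => ρ (x + s • v)) = fun s : ℂ => (fderiv ℝ ρ (x + s • v)).comp l := by
    ext1 s
    have h1 : HasFDerivAt ρ (fderiv ℝ ρ (x + s • v)) (x + s • v) := (hd1 _).hasFDerivAt
    exact (h1.comp s (hline s)).fderiv
  have hd2 : ContDiff ℝ 1 (fderiv ℝ ρ) := hρ.fderiv_right (by norm_num)
  have h2 : HasFDerivAt (fun s : ℂ => fderiv ℝ ρ (x + s • v)) ((fderiv ℝ (fderiv ℝ ρ) x).comp l) 0 := by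
    have h3 : HasFDerivAt (fderiv ℝ ρ) (fderiv ℝ (fderiv ℝ ρ) x) (x + (0:ℂ) • v) := by
      rw [zero_smul, add_zero]
      exact (hd2.differentiable (by norm_num) x).hasFDerivAt
    exact h3.comp 0 (hline 0)
  have h4 := h2.clm_comp (hasFDerivAt_const l (0:ℂ))
  rw [hf, h4.fderiv]
  simp [hlv]

/-- mean value of the logarithm -/
theorem log_avg {ζ a : ℂ} {r : ℝ} (hr : 0 < r) (h : r * ‖a‖ < ‖ζ‖) :
    Real.circleAverage (fun s : ℂ => Real.log ‖ζ + s * a‖) 0 r = Real.log ‖ζ‖ ∧
    ContinuousOn (fun s : ℂ => Real.log ‖ζ + s * a‖) (sphere 0 |r|) := by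
  have hζ : 0 < ‖ζ‖ := lt_of_le_of_lt (by positivity) h
  have hζ0 : ζ ≠ 0 := norm_pos_iff.mp hζ
  have hsmall : ∀ s ∈ closedBall (0:ℂ) r, ‖s * a / ζ‖ < 1 := by
    intro s hs
    have hs' : ‖s‖ ≤ r := by simpa using hs
    rw [norm_div, norm_mul, div_lt_one hζ]
    calc ‖s‖ * ‖a‖ ≤ r * ‖a‖ := by gcongr
      _ < ‖ζ‖ := h
  have hslit : ∀ s ∈ closedBall (0:ℂ) r, 1 + s * a / ζ ∈ slitPlane := by
    intro s hs
    left
    have h1 := hsmall s hs
    have h2 := (abs_lt.mp ((Complex.abs_re_le_norm (s * a / ζ)).trans_lt h1)).1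
    rw [Complex.add_re, Complex.one_re]
    linarith
  set F : ℂ → ℂ := fun s => Complex.log (1 + s * a / ζ) with hF
  have hFd : ∀ s ∈ closedBall (0:ℂ) r, DifferentiableAt ℂ F s := by
    intro s hs
    have h1 : DifferentiableAt ℂ (fun s : ℂ => 1 + s * a / ζ) s := by fun_prop
    exact h1.clog (hslit s hs)
  have habs : |r| = r := abs_of_pos hr
  have hFc : DiffContOnCl ℂ F (ball 0 |r|) := by
    rw [habs]
    constructor
    · intro s hs
      exact (hFd s (ball_subset_closedBall hs)).differentiableWithinAt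
    · rw [closure_ball _ hr.ne']
      intro s hs
      exact (hFd s hs).continuousAt.continuousWithinAt
  have hFi : CircleIntegrable F 0 r := by
    apply ContinuousOn.circleIntegrable hr.le
    intro s hs
    exact (hFd s (sphere_subset_closedBall hs)).continuousAt.continuousWithinAt
  have havg : Real.circleAverage (fun s => (F s).re) 0 r = 0 := by
    have := Complex.reCLM.circleAverage_comp_comm hFi
    rw [hFc.circleAverage] at this
    have h0 : F 0 = 0 := by simp [hF]
    rw [h0, map_zero] at this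
    exact this
  have hpt : ∀ s ∈ closedBall (0:ℂ) r, Real.log ‖ζ + s * a‖ = (F s).re + Real.log ‖ζ‖ := by
    intro s hs
    have h1 : ζ + s * a = (1 + s * a / ζ) * ζ := by field_simp
    have h2 : 1 + s * a / ζ ≠ 0 := slitPlane_ne_zero (hslit s hs)
    rw [h1, norm_mul, Real.log_mul (norm_ne_zero_iff.mpr h2) hζ.ne', hF]
    simp only [Complex.log_re]
  have hFre : ContinuousOn (fun s => (F s).re) (closedBall (0:ℂ) r) := by
    intro s hs
    exact (Complex.continuous_re.continuousAt.comp (hFd s hs).continuousAt).continuousWithinAt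
  constructor
  · have h1 : Real.circleAverage (fun s : ℂ => Real.log ‖ζ + s * a‖) 0 r =
        Real.circleAverage (fun s : ℂ => (F s).re + Real.log ‖ζ‖) 0 r := by
      apply Real.circleAverage_congr_sphere
      intro s hs
      rw [habs] at hs
      exact hpt s (sphere_subset_closedBall hs)
    rw [h1, Real.circleAverage_fun_add ((hFre.mono sphere_subset_closedBall).circleIntegrable hr.le)
      (continuousOn_const.circleIntegrable hr.le), havg, Real.circleAverage_const, zero_add]
  · rw [habs]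
    apply ContinuousOn.congr (f := fun s => (F s).re + Real.log ‖ζ‖)
      ((hFre.mono sphere_subset_closedBall).add continuousOn_const)
    intro s hs
    exact hpt s (sphere_subset_closedBall hs)

theorem L_continuous : Continuous L := (L_contDiff 0).continuous

/-- sub-mean value property of `L` -/
theorem L_sub {ζ a : ℂ} {r : ℝ} (hr : 0 < r) (h : ζ = 0 ∨ r * ‖a‖ < ‖ζ‖) :
    L ζ ≤ Real.circleAverage (fun s : ℂ => L (ζ + s * a)) 0 r := by
  have hc : Continuous (fun s : ℂ => L (ζ + s * a)) := L_continuous.comp (by fun_prop)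
  rcases h with h | h
  · rw [h, L_zero]
    exact Real.circleAverage_nonneg_of_nonneg (fun _ _ => L_nonneg _)
  · have hζ : 0 < ‖ζ‖ := lt_of_le_of_lt (by positivity) h
    have hζ0 : ζ ≠ 0 := norm_pos_iff.mp hζ
    set t0 := Real.log ‖ζ‖ with ht0
    set α := Real.smoothTransition (t0 + 1) with hα
    obtain ⟨h1, h2⟩ := log_avg hr h
    have i1 : CircleIntegrable (fun s : ℂ => Real.log ‖ζ + s * a‖) 0 r := h2.circleIntegrable'
    have i2 : CircleIntegrable (fun s : ℂ => α • Real.log ‖ζ + s * a‖) 0 r := (h2.const_smul α).circleIntegrable'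
    have hlow : Real.circleAverage (fun s : ℂ => (G t0 - α * t0) + α • Real.log ‖ζ + s * a‖) 0 r ≤
        Real.circleAverage (fun s : ℂ => L (ζ + s * a)) 0 r := by
      apply Real.circleAverage_mono _ hc.continuousOn.circleIntegrable'
      · intro s hs
        have hs' : ‖s‖ = r := by simpa [abs_of_pos hr] using hs
        have hne : ζ + s * a ≠ 0 := by
          intro h0
          have h3 : ‖ζ‖ = ‖s * a‖ := by
            rw [← norm_neg (s * a)]
            congr 1
            linear_combination h0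
          rw [norm_mul, hs'] at h3
          linarith
        rw [L_of_ne hne]
        have := G_convex (Real.log ‖ζ + s * a‖) t0
        rw [smul_eq_mul]
        linarith
      · exact (continuousOn_const.add (h2.const_smul α)).circleIntegrable'
    rw [Real.circleAverage_fun_add continuousOn_const.circleIntegrable' i2, Real.circleAverage_fun_smul, h1,
      Real.circleAverage_const] at hlow
    rw [L_of_ne hζ0, ← ht0]
    rw [smul_eq_mul] at hlow
    linarith

theorem Lcont (k : ℕ) (z a : ℂ) : Continuous (fun s : ℂ => ee k • L ((z + s * a) / (tt k : ℝ))) := by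
  have h1 : Continuous (fun s : ℂ => L ((z + s * a) / (tt k : ℝ))) :=
    L_continuous.comp (by fun_prop : Continuous (fun s : ℂ => (z + s * a) / (tt k : ℝ)))
  show Continuous (fun s : ℂ => ee k * L ((z + s * a) / (tt k : ℝ)))
  exact continuous_const.mul h1

theorem phi_continuous : Continuous phi := (phi_contDiff 0).continuous

/-- sub-mean value property of the potential -/
theorem phi_sub {z a : ℂ} {r : ℝ} (hr : 0 < r) (h : z = 0 ∨ r * ‖a‖ < ‖z‖)
    (hin : ∀ s ∈ closedBall (0:ℂ) r, ‖z + s * a‖ ≤ Real.exp 3 + 1) :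
    phi z ≤ Real.circleAverage (fun s : ℂ => phi (z + s * a)) 0 r := by
  have hz : ‖z‖ ≤ Real.exp 3 + 1 := by
    have := hin 0 (mem_closedBall_self hr.le)
    simpa using this
  have hphic : Continuous (fun s : ℂ => phi (z + s * a)) := phi_continuous.comp (by fun_prop)
  have hpart : ∀ N : ℕ, ∑ k ∈ Finset.range N, ee k * uu k z ≤ Real.circleAverage (fun s : ℂ => phi (z + s * a)) 0 r := by
    intro N
    have hterm : ∀ k, ee k * uu k z ≤ Real.circleAverage (fun s : ℂ => ee k • L ((z + s * a) / (tt k : ℝ))) 0 r := by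
      intro k
      rw [Real.circleAverage_fun_smul, smul_eq_mul, uu_eq hz]
      apply mul_le_mul_of_nonneg_left _ (ee_pos k).le
      have h1 : (fun s : ℂ => L ((z + s * a) / (tt k : ℝ))) = fun s : ℂ => L (z / (tt k : ℝ) + s * (a / (tt k : ℝ))) := by
        ext s
        congr 1
        ring
      rw [h1]
      apply L_sub hr
      rcases h with h | h
      · left
        rw [h, zero_div]
      · right
        rw [norm_div_tt, norm_div_tt, ← mul_div_assoc]
        exact div_lt_div_of_pos_right h (tt_pos k)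
    have hcont : ∀ k, CircleIntegrable (fun s : ℂ => ee k • L ((z + s * a) / (tt k : ℝ))) 0 r := by
      intro k
      have : Continuous (fun s : ℂ => ee k • L ((z + s * a) / (tt k : ℝ))) :=
        Lcont k z a
      exact this.continuousOn.circleIntegrable'
    have hsum : Real.circleAverage (fun s : ℂ => ∑ k ∈ Finset.range N, ee k • L ((z + s * a) / (tt k : ℝ))) 0 r =
        ∑ k ∈ Finset.range N, Real.circleAverage (fun s : ℂ => ee k • L ((z + s * a) / (tt k : ℝ))) 0 r :=
      Real.circleAverage_fun_sum (fun k _ => hcont k)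
    have h2 : ∑ k ∈ Finset.range N, ee k * uu k z ≤ Real.circleAverage (fun s : ℂ => ∑ k ∈ Finset.range N, ee k • L ((z + s * a) / (tt k : ℝ))) 0 r := by
      rw [hsum]
      exact Finset.sum_le_sum (fun k _ => hterm k)
    refine h2.trans ?_
    apply Real.circleAverage_mono _ hphic.continuousOn.circleIntegrable'
    · intro s hs
      have hs' : s ∈ closedBall (0:ℂ) r := by
        rw [abs_of_pos hr] at hs
        exact sphere_subset_closedBall hs
      have h3 : ∑ k ∈ Finset.range N, ee k • L ((z + s * a) / (tt k : ℝ)) = ∑ k ∈ Finset.range N, ee k * uu k (z + s * a) := by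
        apply Finset.sum_congr rfl
        intro k _
        rw [uu_eq (hin s hs'), smul_eq_mul]
      rw [h3]
      exact (term_summable _).sum_le_tsum _ (fun k _ => term_nonneg k _)
    · have : Continuous (fun s : ℂ => ∑ k ∈ Finset.range N, ee k • L ((z + s * a) / (tt k : ℝ))) := by
        apply continuous_finsetSum
        intro k _
        exact Lcont k z a
      exact this.continuousOn.circleIntegrable'
  exact le_of_tendsto' (term_summable z).hasSum.tendsto_sum_nat hpart

theorem exp_two_log {x y : ℝ} (hx : 0 < x) : x ^ 2 * Real.exp (2 * y) = Real.exp (2 * (Real.log x + y)) := by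
  rw [mul_add, Real.exp_add]
  congr 1
  rw [mul_comm, Real.exp_mul, Real.exp_log hx]
  norm_cast

theorem rho_sub (v u : E2) (hv : ‖v 0‖ < Real.exp 3 + 1) :
    ∀ᶠ r in 𝓝[>] (0:ℝ), rho (v + (0:ℂ) • u) ≤ Real.circleAverage (fun s : ℂ => rho (v + s • u)) 0 r := by
  set z := v 0 with hz
  set w := v 1 with hw
  set a := u 0 with ha
  set b := u 1 with hb
  -- smallness conditions
  have ev1 : ∀ᶠ r in 𝓝[>] (0:ℝ), z = 0 ∨ r * ‖a‖ < ‖z‖ := by
    by_cases h : z = 0
    · exact Eventually.of_forall (fun _ => Or.inl h)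
    · have h1 : Tendsto (fun r : ℝ => r * ‖a‖) (𝓝[>] 0) (𝓝 (0 * ‖a‖)) :=
        ((continuous_id.mul continuous_const).tendsto 0).mono_left nhdsWithin_le_nhds
      rw [zero_mul] at h1
      filter_upwards [h1.eventually (gt_mem_nhds (norm_pos_iff.mpr h))] with r hr
      exact Or.inr hr
  have ev2 : ∀ᶠ r in 𝓝[>] (0:ℝ), w = 0 ∨ r * ‖b‖ < ‖w‖ := by
    by_cases h : w = 0
    · exact Eventually.of_forall (fun _ => Or.inl h)
    · have h1 : Tendsto (fun r : ℝ => r * ‖b‖) (𝓝[>] 0) (𝓝 (0 * ‖b‖)) :=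
        ((continuous_id.mul continuous_const).tendsto 0).mono_left nhdsWithin_le_nhds
      rw [zero_mul] at h1
      filter_upwards [h1.eventually (gt_mem_nhds (norm_pos_iff.mpr h))] with r hr
      exact Or.inr hr
  have ev3 : ∀ᶠ r in 𝓝[>] (0:ℝ), ‖z‖ + r * ‖a‖ < Real.exp 3 + 1 := by
    have h1 : Tendsto (fun r : ℝ => ‖z‖ + r * ‖a‖) (𝓝[>] 0) (𝓝 (‖z‖ + 0 * ‖a‖)) :=
      ((continuous_const.add (continuous_id.mul continuous_const)).tendsto 0).mono_left nhdsWithin_le_nhds
    rw [zero_mul, add_zero] at h1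
    exact h1.eventually (gt_mem_nhds hv)
  filter_upwards [ev1, ev2, ev3, self_mem_nhdsWithin] with r h1 h2 h3 h4
  have hr : 0 < r := h4
  have hcoord : ∀ s : ℂ, rho (v + s • u) = ‖w + s * b‖ ^ 2 * Real.exp (2 * phi (z + s * a)) +
      L ((z + s * a) / (cc : ℝ)) - 1 := by
    intro s
    unfold rho
    simp [hz, hw, ha, hb]
  have hin : ∀ s ∈ closedBall (0:ℂ) r, ‖z + s * a‖ ≤ Real.exp 3 + 1 := by
    intro s hs
    have hs' : ‖s‖ ≤ r := by simpa using hs
    calc ‖z + s * a‖ ≤ ‖z‖ + ‖s * a‖ := norm_add_le _ _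
      _ = ‖z‖ + ‖s‖ * ‖a‖ := by rw [norm_mul]
      _ ≤ ‖z‖ + r * ‖a‖ := by gcongr
      _ ≤ _ := h3.le
  have hphi := phi_sub hr h1 hin
  have hphic : Continuous (fun s : ℂ => phi (z + s * a)) := phi_continuous.comp (by fun_prop)
  -- first part
  have hfirstc : Continuous (fun s : ℂ => ‖w + s * b‖ ^ 2 * Real.exp (2 * phi (z + s * a))) := by
    have e1 : Continuous (fun s : ℂ => ‖w + s * b‖ ^ 2) := by fun_prop
    exact e1.mul (Real.continuous_exp.comp (continuous_const.mul hphic))
  have hfirst : ‖w‖ ^ 2 * Real.exp (2 * phi z) ≤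
      Real.circleAverage (fun s : ℂ => ‖w + s * b‖ ^ 2 * Real.exp (2 * phi (z + s * a))) 0 r := by
    rcases h2 with h2 | h2
    · rw [h2]
      simp only [norm_zero]
      rw [zero_pow (by norm_num), zero_mul]
      exact Real.circleAverage_nonneg_of_nonneg (fun _ _ => by positivity)
    · have hwpos : 0 < ‖w‖ := lt_of_le_of_lt (by positivity) h2
      obtain ⟨g1, g2⟩ := log_avg hr h2
      have hexp : ‖w‖ ^ 2 * Real.exp (2 * phi z) = Real.exp (2 * (Real.log ‖w‖ + phi z)) := by
        rw [mul_add, Real.exp_add]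
        congr 1
        rw [mul_comm, Real.exp_mul, Real.exp_log hwpos]
        norm_cast
      set U0 := Real.log ‖w‖ + phi z with hU0
      set E0 := Real.exp (2 * U0) with hE0
      have hE0pos : 0 < E0 := Real.exp_pos _
      have i1 : CircleIntegrable (fun s : ℂ => Real.log ‖w + s * b‖) 0 r := g2.circleIntegrable'
      have i2 : CircleIntegrable (fun s : ℂ => phi (z + s * a)) 0 r := hphic.continuousOn.circleIntegrable'
      have hcontU : ContinuousOn (fun s : ℂ => Real.log ‖w + s * b‖ + phi (z + s * a)) (sphere 0 |r|) :=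
        g2.add hphic.continuousOn
      have hlow : Real.circleAverage (fun s : ℂ => (E0 - 2 * E0 * U0) + (2 * E0) • (Real.log ‖w + s * b‖ + phi (z + s * a))) 0 r ≤
          Real.circleAverage (fun s : ℂ => ‖w + s * b‖ ^ 2 * Real.exp (2 * phi (z + s * a))) 0 r := by
        apply Real.circleAverage_mono _ hfirstc.continuousOn.circleIntegrable'
        · intro s hs
          have hs' : ‖s‖ = r := by simpa [abs_of_pos hr] using hs
          have hne : w + s * b ≠ 0 := by
            intro h0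
            have h3 : ‖w‖ = ‖s * b‖ := by
              rw [← norm_neg (s * b)]
              congr 1
              linear_combination h0
            rw [norm_mul, hs'] at h3
            linarith
          have hpos := norm_pos_iff.mpr hne
          have hexp2 : ‖w + s * b‖ ^ 2 * Real.exp (2 * phi (z + s * a)) =
              Real.exp (2 * (Real.log ‖w + s * b‖ + phi (z + s * a))) := exp_two_log hpos
          rw [hexp2]
          set U := Real.log ‖w + s * b‖ + phi (z + s * a) with hU
          have h5 : Real.exp (2 * U) = E0 * Real.exp (2 * U - 2 * U0) := by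
            rw [hE0, ← Real.exp_add]
            congr 1
            ring
          rw [h5, smul_eq_mul]
          have h6 := Real.add_one_le_exp (2 * U - 2 * U0)
          nlinarith
        · exact (continuousOn_const.add (hcontU.const_smul (2 * E0))).circleIntegrable'
      have i3 : CircleIntegrable (fun s : ℂ => (2 * E0) • (Real.log ‖w + s * b‖ + phi (z + s * a))) 0 r :=
        (hcontU.const_smul (2 * E0)).circleIntegrable'
      have i4 : CircleIntegrable (fun _ : ℂ => E0 - 2 * E0 * U0) 0 r := continuousOn_const.circleIntegrable'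
      rw [Real.circleAverage_fun_add i4 i3,
        Real.circleAverage_fun_smul, Real.circleAverage_fun_add i1 i2, g1, Real.circleAverage_const] at hlow
      rw [hexp]
      refine le_trans ?_ hlow
      rw [smul_eq_mul]
      have : 0 ≤ 2 * E0 * (Real.circleAverage (fun s : ℂ => phi (z + s * a)) 0 r - phi z) :=
        mul_nonneg (by positivity) (by linarith)
      nlinarith
  have hsecondc : Continuous (fun s : ℂ => L ((z + s * a) / (cc : ℝ))) := L_continuous.comp (by fun_prop)
  have hsecond : L (z / (cc : ℝ)) ≤ Real.circleAverage (fun s : ℂ => L ((z + s * a) / (cc : ℝ))) 0 r := by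
    have e1 : (fun s : ℂ => L ((z + s * a) / (cc : ℝ))) = fun s : ℂ => L (z / (cc : ℝ) + s * (a / (cc : ℝ))) := by
      ext s
      congr 1
      ring
    rw [e1]
    apply L_sub hr
    rcases h1 with h | h
    · left
      rw [h, zero_div]
    · right
      rw [norm_div, norm_div, Complex.norm_real, Real.norm_of_nonneg cc_pos.le, ← mul_div_assoc]
      exact div_lt_div_of_pos_right h cc_pos
  have hfun : (fun s : ℂ => rho (v + s • u)) = fun s : ℂ => (‖w + s * b‖ ^ 2 * Real.exp (2 * phi (z + s * a)) +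
      L ((z + s * a) / (cc : ℝ))) + (-1) := by
    ext s
    rw [hcoord]
    ring
  have j1 : CircleIntegrable (fun s : ℂ => ‖w + s * b‖ ^ 2 * Real.exp (2 * phi (z + s * a))) 0 r :=
    hfirstc.continuousOn.circleIntegrable'
  have j2 : CircleIntegrable (fun s : ℂ => L ((z + s * a) / (cc : ℝ))) 0 r := hsecondc.continuousOn.circleIntegrable'
  have j3 : CircleIntegrable (fun s : ℂ => ‖w + s * b‖ ^ 2 * Real.exp (2 * phi (z + s * a)) +
      L ((z + s * a) / (cc : ℝ))) 0 r := j1.add j2
  have j4 : CircleIntegrable (fun _ : ℂ => (-1:ℝ)) 0 r := continuousOn_const.circleIntegrable'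
  rw [hfun, Real.circleAverage_fun_add j3 j4, Real.circleAverage_fun_add j1 j2, Real.circleAverage_const, hcoord]
  simp only [zero_mul, add_zero]
  linarith

/-- Levi form condition -/
theorem rho_levi (v : E2) (hv : rho v = 0) (u : E2) :
    0 ≤ fderiv ℝ (fderiv ℝ rho) v u u + fderiv ℝ (fderiv ℝ rho) v (Complex.I • u) (Complex.I • u) := by
  have hz : ‖v 0‖ < Real.exp 3 + 1 := by
    have h1 : L (v 0 / (cc : ℝ)) ≤ 1 := by
      have h2 : 0 ≤ ‖v 1‖ ^ 2 * Real.exp (2 * phi (v 0)) := by positivity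
      unfold rho at hv
      linarith
    rcases eq_or_ne (v 0) 0 with h0 | h0
    · rw [h0, norm_zero]
      positivity
    · have hc : (cc : ℂ) ≠ 0 := by exact_mod_cast cc_pos.ne'
      have h2 : v 0 / (cc : ℝ) ≠ 0 := div_ne_zero h0 hc
      have h3 := (log_le_L h2).trans h1
      have h4 : ‖v 0 / (cc : ℝ)‖ = ‖v 0‖ / cc := by
        rw [norm_div, Complex.norm_real, Real.norm_of_nonneg cc_pos.le]
      rw [h4, Real.log_le_iff_le_exp (by have := cc_pos; positivity), div_le_iff₀ cc_pos, cc, ← Real.exp_add] at h3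
      norm_num at h3
      linarith
  have h1 : ContDiff ℝ 2 (fun s : ℂ => rho (v + s • u)) := by
    have h2 : ContDiff ℝ 2 (fun s : ℂ => v + s • u) := by fun_prop
    exact (rho_contDiff 2).comp h2
  have h2 := rho_sub v u hz
  have h3 := laplacian_nonneg h1 h2
  rw [line_second (rho_contDiff 2), line_second (rho_contDiff 2), one_smul] at h3
  exact h3

end Pool.Agent.H788R3.Bp
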