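import Pool.Agent.H788R3.Bp.Avg
import Pool.Agent.H788R3.Bp.Levi

set_option autoImplicit false
open MeasureTheory Set Metric Complex Filter Topology
open scoped ENNReal

namespace Pool.Agent.H788R3.Bp

open Pool.Agent.H788R3.Sq

theorem lint_prod (H : ℂ → ℂ → ℝ≥0∞) (hH : Measurable (Function.uncurry H)) :
    ∫⁻ v : E2, H (v 0) (v 1) = ∫⁻ z : ℂ, ∫⁻ w : ℂ, H z w := by
  have h1 := (volume_preserving_finTwoArrow ℂ).lintegral_comp hH
  have h2 : ∀ v : E2, Function.uncurry H (MeasurableEquiv.finTwoArrow v) = H (v 0) (v 1) := fun v => rfl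
  simp_rw [h2] at h1
  rw [h1, Measure.volume_eq_prod, lintegral_prod _ hH.aemeasurable]
  rfl

noncomputable def JJ (a : ℝ) : ℝ≥0∞ := ∫⁻ w in ball (0:ℂ) 1, ENNReal.ofReal (‖w‖ ^ a)

theorem JJ_lt_top {a : ℝ} (ha : 0 ≤ a) : JJ a < ⊤ := by
  unfold JJ
  calc ∫⁻ w in ball (0:ℂ) 1, ENNReal.ofReal (‖w‖ ^ a) ≤ ∫⁻ w in ball (0:ℂ) 1, 1 := by
        apply setLIntegral_mono measurable_const
        intro w hw
        rw [mem_ball_zero_iff] at hw
        rw [ENNReal.ofReal_le_one]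
        exact Real.rpow_le_one (norm_nonneg _) hw.le ha
    _ < ⊤ := by
        rw [setLIntegral_one]
        exact measure_ball_lt_top

theorem norm_rpow_measurable (a : ℝ) : Measurable (fun w : ℂ => ENNReal.ofReal (‖w‖ ^ a)) :=
  (measurable_norm.pow_const a).ennreal_ofReal

theorem JJ_pos (a : ℝ) : 0 < JJ a := by
  unfold JJ
  rw [setLIntegral_pos_iff (norm_rpow_measurable a)]
  have h1 : (Function.support fun w : ℂ => ENNReal.ofReal (‖w‖ ^ a)) ∩ ball 0 1 ⊇ ball (0:ℂ) 1 \ {0} := by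
    rintro w ⟨hw, hw0⟩
    refine ⟨?_, hw⟩
    rw [Function.mem_support]
    have : 0 < ‖w‖ := norm_pos_iff.mpr hw0
    have h2 : 0 < ‖w‖ ^ a := Real.rpow_pos_of_pos this a
    exact (ENNReal.ofReal_pos.mpr h2).ne'
  refine lt_of_lt_of_le ?_ (measure_mono h1)
  rw [measure_sdiff_null (measure_singleton 0)]
  exact measure_ball_pos _ _ one_pos

theorem scale {a : ℝ} {r : ℝ} (hr : 0 < r) :
    ∫⁻ w in ball (0:ℂ) r, ENNReal.ofReal (‖w‖ ^ a) = ENNReal.ofReal (r ^ (a + 2)) * JJ a := by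
  have h1 : (volume : Measure ℂ) = ENNReal.ofReal (r ^ 2) • Measure.map (fun w : ℂ => r • w) volume := by
    rw [Measure.map_addHaar_smul volume hr.ne', smul_smul, Complex.finrank_real_complex]
    rw [← ENNReal.ofReal_mul (by positivity), abs_of_pos (by positivity)]
    rw [mul_inv_cancel₀ (by positivity), ENNReal.ofReal_one, one_smul]
  rw [← lintegral_indicator measurableSet_ball]
  have hm : Measurable ((ball (0:ℂ) r).indicator fun w => ENNReal.ofReal (‖w‖ ^ a)) :=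
    (norm_rpow_measurable a).indicator measurableSet_ball
  have h2 : ∫⁻ w : ℂ, (ball (0:ℂ) r).indicator (fun w => ENNReal.ofReal (‖w‖ ^ a)) w
      = ENNReal.ofReal (r ^ 2) * ∫⁻ u : ℂ, (ball (0:ℂ) r).indicator (fun w => ENNReal.ofReal (‖w‖ ^ a)) (r • u) := by
    conv_lhs => rw [h1]
    rw [lintegral_smul_measure, lintegral_map hm (measurable_const_smul r)]
    rfl
  rw [h2]
  have h3 : ∀ u : ℂ, (ball (0:ℂ) r).indicator (fun w => ENNReal.ofReal (‖w‖ ^ a)) (r • u)
      = ENNReal.ofReal (r ^ a) * (ball (0:ℂ) 1).indicator (fun w => ENNReal.ofReal (‖w‖ ^ a)) u := by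
    intro u
    have hn : ‖r • u‖ = r * ‖u‖ := by rw [norm_smul, Real.norm_of_nonneg hr.le]
    by_cases hu : ‖u‖ < 1
    · have h4 : r • u ∈ ball (0:ℂ) r := by
        rw [mem_ball_zero_iff, hn]
        exact mul_lt_of_lt_one_right hr hu
      have h5 : u ∈ ball (0:ℂ) 1 := mem_ball_zero_iff.mpr hu
      rw [indicator_of_mem h4, indicator_of_mem h5, hn, Real.mul_rpow hr.le (norm_nonneg _),
        ENNReal.ofReal_mul (by positivity)]
    · have h4 : r • u ∉ ball (0:ℂ) r := by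
        rw [mem_ball_zero_iff, hn]
        push Not at hu ⊢
        nlinarith
      have h5 : u ∉ ball (0:ℂ) 1 := by rwa [mem_ball_zero_iff]
      rw [indicator_of_notMem h4, indicator_of_notMem h5, mul_zero]
  simp_rw [h3]
  rw [lintegral_const_mul _ ((norm_rpow_measurable a).indicator measurableSet_ball),
    lintegral_indicator measurableSet_ball, ← mul_assoc, ← ENNReal.ofReal_mul (by positivity)]
  congr 2
  rw [Real.rpow_add hr, mul_comm]
  norm_cast

/-- weight -/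
noncomputable def WW (a : ℝ) (z : ℂ) : ℝ := Real.exp (-((a + 2) * phi z))

theorem WW_cont (a : ℝ) : Continuous (WW a) := by
  unfold WW
  have := phi_continuous
  fun_prop

theorem WW_meas (a : ℝ) : Measurable (fun z => ENNReal.ofReal (WW a z)) :=
  (WW_cont a).measurable.ennreal_ofReal

def KS : Set (ℂ × ℂ) := {p | ‖p.2‖ < Real.exp (-(phi p.1))}

theorem KS_meas : MeasurableSet KS := by
  apply IsOpen.measurableSet
  apply isOpen_lt
  · fun_prop
  · have := phi_continuous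
    fun_prop

theorem inner (F : ℂ → ℝ≥0∞) (hF : Measurable F) {a : ℝ} (ha : 0 ≤ a) :
    ∫⁻ v : E2, F (v 0) * KS.indicator (fun p : ℂ × ℂ => ENNReal.ofReal (‖p.2‖ ^ a)) (v 0, v 1)
      = JJ a * ∫⁻ z : ℂ, F z * ENNReal.ofReal (WW a z) := by
  have hm : Measurable (KS.indicator (fun p : ℂ × ℂ => ENNReal.ofReal (‖p.2‖ ^ a))) :=
    ((norm_rpow_measurable a).comp measurable_snd).indicator KS_meas
  have h1 := lint_prod (fun z w => F z * KS.indicator (fun p : ℂ × ℂ => ENNReal.ofReal (‖p.2‖ ^ a)) (z, w))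
    (by
      exact (hF.comp measurable_fst).mul hm)
  rw [h1]
  have h2 : ∀ z : ℂ, ∫⁻ w : ℂ, F z * KS.indicator (fun p : ℂ × ℂ => ENNReal.ofReal (‖p.2‖ ^ a)) (z, w)
      = JJ a * (F z * ENNReal.ofReal (WW a z)) := by
    intro z
    have hm2 : Measurable (fun w : ℂ => KS.indicator (fun p : ℂ × ℂ => ENNReal.ofReal (‖p.2‖ ^ a)) (z, w)) :=
      hm.comp measurable_prodMk_left
    rw [lintegral_const_mul _ hm2]
    have h3 : ∀ w : ℂ, KS.indicator (fun p : ℂ × ℂ => ENNReal.ofReal (‖p.2‖ ^ a)) (z, w)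
        = (ball (0:ℂ) (Real.exp (-(phi z)))).indicator (fun w => ENNReal.ofReal (‖w‖ ^ a)) w := by
      intro w
      by_cases hw : ‖w‖ < Real.exp (-(phi z))
      · rw [indicator_of_mem (show (z, w) ∈ KS from hw), indicator_of_mem (mem_ball_zero_iff.mpr hw)]
      · rw [indicator_of_notMem (show (z, w) ∉ KS from hw),
          indicator_of_notMem (by rwa [mem_ball_zero_iff])]
    simp_rw [h3]
    rw [lintegral_indicator measurableSet_ball, scale (Real.exp_pos _), ← Real.exp_mul]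
    have e : -(phi z) * (a + 2) = -((a + 2) * phi z) := by ring
    rw [e]
    unfold WW
    ring
  simp_rw [h2]
  have hm3 : Measurable (fun z => F z * ENNReal.ofReal (WW a z)) := hF.mul (WW_meas a)
  rw [lintegral_const_mul _ hm3]

theorem upper (F : ℂ → ℝ≥0∞) (hF : Measurable F) {a : ℝ} (ha : 0 ≤ a) :
    ∫⁻ v in Om, F (v 0) * ENNReal.ofReal (‖v 1‖ ^ a)
      ≤ JJ a * ∫⁻ z in ball (0:ℂ) (Real.exp 3), F z * ENNReal.ofReal (WW a z) := by
  have h1 := inner ((ball (0:ℂ) (Real.exp 3)).indicator F) (hF.indicator measurableSet_ball) ha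
  have h2 : ∫⁻ z in ball (0:ℂ) (Real.exp 3), F z * ENNReal.ofReal (WW a z)
      = ∫⁻ z : ℂ, (ball (0:ℂ) (Real.exp 3)).indicator F z * ENNReal.ofReal (WW a z) := by
    rw [← lintegral_indicator measurableSet_ball]
    congr 1
    ext z
    by_cases hz : z ∈ ball (0:ℂ) (Real.exp 3)
    · rw [indicator_of_mem hz, indicator_of_mem hz]
    · rw [indicator_of_notMem hz, indicator_of_notMem hz, zero_mul]
  rw [h2, ← h1, ← lintegral_indicator Om_open.measurableSet]
  apply lintegral_mono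
  intro v
  by_cases hv : v ∈ Om
  · rw [indicator_of_mem hv]
    have h3 : v 0 ∈ ball (0:ℂ) (Real.exp 3) := mem_ball_zero_iff.mpr (Om_z hv)
    have h4 : (v 0, v 1) ∈ KS := Om_w2 hv
    simp only [indicator_of_mem h3, indicator_of_mem h4]
    exact le_rfl
  · rw [indicator_of_notMem hv]
    exact zero_le

theorem Om_of_small {v : E2} (hz : ‖v 0‖ < 1) (hw : ‖v 1‖ < Real.exp (-(phi (v 0)))) : v ∈ Om := by
  show rho v < 0
  unfold rho
  have h1 : L (v 0 / (cc : ℝ)) = 0 := by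
    apply L_small
    rw [norm_div, Complex.norm_real, Real.norm_of_nonneg cc_pos.le, div_le_iff₀ cc_pos, cc, ← Real.exp_add]
    have : (1:ℝ) ≤ Real.exp (-1 + 2) := Real.one_le_exp (by norm_num)
    linarith
  rw [h1]
  have h2 : ‖v 1‖ * Real.exp (phi (v 0)) < 1 := by
    rw [Real.exp_neg, ← one_div, lt_div_iff₀ (Real.exp_pos _)] at hw
    exact hw
  have h3 : (‖v 1‖ * Real.exp (phi (v 0))) ^ 2 = ‖v 1‖ ^ 2 * Real.exp (2 * phi (v 0)) := by
    rw [mul_pow, ← Real.exp_nat_mul]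
    norm_cast
  have h4 : 0 ≤ ‖v 1‖ * Real.exp (phi (v 0)) := by positivity
  have h5 : (‖v 1‖ * Real.exp (phi (v 0))) ^ 2 < 1 := by nlinarith
  linarith

theorem lower (F : ℂ → ℝ≥0∞) (hF : Measurable F) {a : ℝ} (ha : 0 ≤ a) :
    JJ a * ∫⁻ z in ball (0:ℂ) 1, F z * ENNReal.ofReal (WW a z)
      ≤ ∫⁻ v in Om, F (v 0) * ENNReal.ofReal (‖v 1‖ ^ a) := by
  have h1 := inner ((ball (0:ℂ) 1).indicator F) (hF.indicator measurableSet_ball) ha
  have h2 : ∫⁻ z in ball (0:ℂ) 1, F z * ENNReal.ofReal (WW a z)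
      = ∫⁻ z : ℂ, (ball (0:ℂ) 1).indicator F z * ENNReal.ofReal (WW a z) := by
    rw [← lintegral_indicator measurableSet_ball]
    congr 1
    ext z
    by_cases hz : z ∈ ball (0:ℂ) 1
    · rw [indicator_of_mem hz, indicator_of_mem hz]
    · rw [indicator_of_notMem hz, indicator_of_notMem hz, zero_mul]
  rw [h2, ← h1, ← lintegral_indicator Om_open.measurableSet]
  apply lintegral_mono
  intro v
  by_cases hv : v 0 ∈ ball (0:ℂ) 1
  · by_cases hw : (v 0, v 1) ∈ KS
    · have h3 : v ∈ Om := Om_of_small (mem_ball_zero_iff.mp hv) hw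
      simp only [indicator_of_mem hv, indicator_of_mem hw, indicator_of_mem h3]
      exact le_rfl
    · simp only [indicator_of_notMem hw, mul_zero]
      exact zero_le
  · simp only [indicator_of_notMem hv, zero_mul]
    exact zero_le

/-- pointwise upper bound for the weight -/
theorem WW_le {a : ℝ} (ha : 0 ≤ a) (j : ℕ) {z : ℂ} (hz : ‖z‖ ≤ Real.exp 3 + 1) (hz0 : z ≠ 0) :
    WW a z ≤ (tt j / ‖z‖) ^ ((a + 2) / NN j) := by
  have h1 := phi_ge hz hz0 j
  have ht := tt_pos j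
  have hzn : 0 < ‖z‖ := norm_pos_iff.mpr hz0
  have hN := NN_pos' j
  unfold WW
  rw [Real.rpow_def_of_pos (by positivity)]
  apply Real.exp_le_exp.mpr
  have h2 : Real.log (tt j / ‖z‖) = -Real.log (‖z‖ / tt j) := by
    rw [← Real.log_inv, inv_div]
  rw [h2]
  have h3 : (a + 2) * (ee j * Real.log (‖z‖ / tt j)) ≤ (a + 2) * phi z :=
    mul_le_mul_of_nonneg_left h1 (by linarith)
  have h4 : -Real.log (‖z‖ / tt j) * ((a + 2) / NN j) = -((a + 2) * (ee j * Real.log (‖z‖ / tt j))) := by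
    unfold ee
    field_simp
  rw [h4]
  linarith

theorem WW_le_one {a : ℝ} (ha : 0 ≤ a) (z : ℂ) : WW a z ≤ 1 := by
  unfold WW
  rw [Real.exp_le_one_iff]
  have := phi_nonneg z
  nlinarith [mul_nonneg (by linarith : (0:ℝ) ≤ a + 2) this]

/-- pointwise lower bound for the weight -/
theorem WW_ge {a : ℝ} (ha : 0 ≤ a) {j : ℕ} {z : ℂ} (hz : ∀ i < j, ‖z‖ ≤ Real.exp (-1) * tt i)
    (hz1 : ‖z‖ ≤ Real.exp 3 + 1) {r : ℝ} (hr : 1 ≤ r) (hzr : ‖z‖ ≤ r * tt j) :
    Real.exp (-((a + 2) / NN j * (Real.log r + 2))) ≤ WW a z := by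
  have h1 := phi_le hz hz1 hr hzr
  have hN := NN_pos' j
  unfold WW
  apply Real.exp_le_exp.mpr
  have h3 : (a + 2) * phi z ≤ (a + 2) * (ee j * (Real.log r + 2)) :=
    mul_le_mul_of_nonneg_left h1 (by linarith)
  have h4 : (a + 2) / NN j * (Real.log r + 2) = (a + 2) * (ee j * (Real.log r + 2)) := by
    unfold ee
    field_simp
  rw [h4]
  linarith

/-- dyadic estimate -/
theorem dyadic {g : ℂ → ℝ≥0∞} {t : ℝ} (ht : 0 < t)
    (h1 : ∀ z, g z ≤ 1) (h2 : ∀ z : ℂ, z ≠ 0 → ‖z‖ ≤ Real.exp 3 + 1 → g z ≤ ENNReal.ofReal ((t / ‖z‖) ^ 2)) (n : ℕ) :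
    ∫⁻ z in ball (0:ℂ) (2 ^ n * t) ∩ ball 0 (Real.exp 3), g z ≤ ENNReal.ofReal (Real.pi * t ^ 2 * (1 + 4 * n)) := by
  have hpi := Real.pi_pos
  induction n with
  | zero =>
    calc ∫⁻ z in ball (0:ℂ) (2 ^ 0 * t) ∩ ball 0 (Real.exp 3), g z
        ≤ ∫⁻ z in ball (0:ℂ) (2 ^ 0 * t) ∩ ball 0 (Real.exp 3), 1 := lintegral_mono h1
      _ = volume (ball (0:ℂ) (2 ^ 0 * t) ∩ ball 0 (Real.exp 3)) := setLIntegral_one _
      _ ≤ volume (ball (0:ℂ) (2 ^ 0 * t)) := measure_mono inter_subset_left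
      _ = _ := by
          rw [Complex.volume_ball, pow_zero, one_mul, Nat.cast_zero, mul_zero, add_zero, mul_one,
            ← ENNReal.ofReal_pow ht.le, mul_comm Real.pi, ENNReal.ofReal_mul (by positivity)]
          congr 1
          rw [← ENNReal.ofReal_coe_nnreal]
          rfl
  | succ n ih =>
    have hsub : ball (0:ℂ) (2 ^ (n + 1) * t) ∩ ball 0 (Real.exp 3)
        ⊆ (ball (0:ℂ) (2 ^ n * t) ∩ ball 0 (Real.exp 3)) ∪
          ((ball (0:ℂ) (2 ^ (n + 1) * t) ∩ ball 0 (Real.exp 3)) \ ball 0 (2 ^ n * t)) := by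
      intro z hz
      by_cases h : z ∈ ball (0:ℂ) (2 ^ n * t)
      · exact Or.inl ⟨h, hz.2⟩
      · exact Or.inr ⟨hz, h⟩
    have h3 : ∫⁻ z in ((ball (0:ℂ) (2 ^ (n + 1) * t) ∩ ball 0 (Real.exp 3)) \ ball 0 (2 ^ n * t)), g z
        ≤ ENNReal.ofReal (Real.pi * t ^ 2 * 4) := by
      have hms : MeasurableSet ((ball (0:ℂ) (2 ^ (n + 1) * t) ∩ ball 0 (Real.exp 3)) \ ball 0 (2 ^ n * t)) :=
        (measurableSet_ball.inter measurableSet_ball).diff measurableSet_ball
      calc ∫⁻ z in ((ball (0:ℂ) (2 ^ (n + 1) * t) ∩ ball 0 (Real.exp 3)) \ ball 0 (2 ^ n * t)), g z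
          ≤ ∫⁻ z in ((ball (0:ℂ) (2 ^ (n + 1) * t) ∩ ball 0 (Real.exp 3)) \ ball 0 (2 ^ n * t)),
              ENNReal.ofReal ((1 / 2 ^ n) ^ 2) := by
            apply setLIntegral_mono measurable_const
            rintro z ⟨⟨hz1, hz2⟩, hz3⟩
            rw [mem_ball_zero_iff] at hz1 hz2 hz3
            push Not at hz3
            have hp : (0:ℝ) < 2 ^ n * t := by positivity
            have hz0 : 0 < ‖z‖ := lt_of_lt_of_le hp hz3
            refine (h2 z (norm_pos_iff.mp hz0) (by linarith)).trans ?_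
            apply ENNReal.ofReal_le_ofReal
            apply pow_le_pow_left₀ (by positivity)
            rw [div_le_div_iff₀ hz0 (by positivity)]
            linarith
        _ ≤ ∫⁻ z in ball (0:ℂ) (2 ^ (n + 1) * t), ENNReal.ofReal ((1 / 2 ^ n) ^ 2) := by
            apply lintegral_mono_set
            exact sdiff_subset.trans inter_subset_left
        _ = ENNReal.ofReal ((1 / 2 ^ n) ^ 2) * volume (ball (0:ℂ) (2 ^ (n + 1) * t)) := by
            rw [setLIntegral_const]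
        _ = _ := by
            rw [Complex.volume_ball, ← ENNReal.ofReal_pow (by positivity)]
            have e : (↑NNReal.pi : ℝ≥0∞) = ENNReal.ofReal Real.pi := by
              rw [← ENNReal.ofReal_coe_nnreal]; rfl
            rw [e, ← ENNReal.ofReal_mul (by positivity), ← ENNReal.ofReal_mul (by positivity)]
            congr 1
            field_simp
            ring
    calc ∫⁻ z in ball (0:ℂ) (2 ^ (n + 1) * t) ∩ ball 0 (Real.exp 3), g z
        ≤ ∫⁻ z in (ball (0:ℂ) (2 ^ n * t) ∩ ball 0 (Real.exp 3)) ∪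
          ((ball (0:ℂ) (2 ^ (n + 1) * t) ∩ ball 0 (Real.exp 3)) \ ball 0 (2 ^ n * t)), g z := lintegral_mono_set hsub
      _ ≤ _ := lintegral_union_le _ _ _
      _ ≤ ENNReal.ofReal (Real.pi * t ^ 2 * (1 + 4 * n)) + ENNReal.ofReal (Real.pi * t ^ 2 * 4) := add_le_add ih h3
      _ = _ := by
          rw [← ENNReal.ofReal_add (by positivity) (by positivity)]
          congr 1
          push_cast
          ring

end Pool.Agent.H788R3.Bp
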