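import Pool.Agent.H788R3.Sq.G

set_option autoImplicit false
open MeasureTheory Set Metric Complex Filter Topology

namespace Pool.Agent.H788R3.Bp

open Pool.Agent.H788R3.Sq (G L)
open Pool.Agent.H788R3.Sq

noncomputable def tt (j : ℕ) : ℝ := Real.exp (-(3:ℝ) ^ j)

theorem tt_pos (j : ℕ) : 0 < tt j := Real.exp_pos _

theorem tt_anti {i j : ℕ} (h : i ≤ j) : tt j ≤ tt i := by
  unfold tt
  apply Real.exp_le_exp.mpr
  have : (3:ℝ) ^ i ≤ 3 ^ j := pow_le_pow_right₀ (by norm_num) h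
  linarith

theorem tt_le_one (j : ℕ) : tt j ≤ 1 := by
  unfold tt
  rw [Real.exp_le_one_iff]
  have : (0:ℝ) < 3 ^ j := by positivity
  linarith

noncomputable def bump : ContDiffBump (0 : ℂ) :=
  ⟨Real.exp 3 + 1, Real.exp 3 + 2, by positivity, by linarith⟩

noncomputable def uu (k : ℕ) (z : ℂ) : ℝ := bump z * L (z / (tt k : ℝ))

theorem Lk_contDiff (k n : ℕ) : ContDiff ℝ n (fun z : ℂ => L (z / (tt k : ℝ))) := by
  have h1 := L_contDiff n
  have h2 : ContDiff ℝ n (fun z : ℂ => z / (tt k : ℝ)) := by fun_prop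
  exact h1.comp h2

theorem uu_contDiff (k n : ℕ) : ContDiff ℝ n (uu k) := by
  have h1 : ContDiff ℝ ((n : ℕ∞) : WithTop ℕ∞) (bump : ℂ → ℝ) := bump.contDiff
  exact ContDiff.mul h1 (Lk_contDiff k n)

theorem uu_support (k : ℕ) : HasCompactSupport (uu k) := by
  have h1 : HasCompactSupport (bump : ℂ → ℝ) := bump.hasCompactSupport
  exact h1.mul_right

theorem exists_MM (k : ℕ) : ∃ M : ℕ, 1 ≤ M ∧ ∀ i ≤ k, ∀ z : ℂ, ‖iteratedFDeriv ℝ i (uu k) z‖ ≤ M := by
  have h : ∀ i : ℕ, ∃ C : ℝ, ∀ z : ℂ, ‖iteratedFDeriv ℝ i (uu k) z‖ ≤ C := by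
    intro i
    have hc : Continuous (iteratedFDeriv ℝ i (uu k)) :=
      (uu_contDiff k i).continuous_iteratedFDeriv le_rfl
    exact ((uu_support k).iteratedFDeriv i).exists_bound_of_continuous hc
  choose C hC using h
  obtain ⟨M, hM⟩ := exists_nat_ge (∑ i ∈ Finset.range (k + 1), |C i|)
  refine ⟨M + 1, by omega, ?_⟩
  intro i hi z
  have h1 := hC i z
  have h2 : |C i| ≤ ∑ i ∈ Finset.range (k + 1), |C i| :=
    Finset.single_le_sum (f := fun i => |C i|) (fun _ _ => abs_nonneg _) (Finset.mem_range.mpr (by omega))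
  push_cast
  linarith [le_abs_self (C i)]

noncomputable def MM (k : ℕ) : ℕ := (exists_MM k).choose

theorem MM_ge (k : ℕ) : 1 ≤ MM k := (exists_MM k).choose_spec.1

theorem MM_ge' (k : ℕ) : (1:ℝ) ≤ MM k := by exact_mod_cast MM_ge k

theorem MM_spec (k i : ℕ) (hi : i ≤ k) (z : ℂ) : ‖iteratedFDeriv ℝ i (uu k) z‖ ≤ MM k :=
  (exists_MM k).choose_spec.2 i hi z

/-- `NN k = k_k + 1` -/
noncomputable def NN (k : ℕ) : ℕ := ∏ i ∈ Finset.range (k + 1), (2 * MM i)

theorem NN_succ (k : ℕ) : NN (k + 1) = NN k * (2 * MM (k + 1)) := by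
  unfold NN
  rw [Finset.prod_range_succ]

theorem NN_zero : NN 0 = 2 * MM 0 := by simp [NN]

theorem NN_ge (k : ℕ) : 2 ^ (k + 1) ≤ NN k := by
  induction k with
  | zero => rw [NN_zero]; have := MM_ge 0; omega
  | succ k ih =>
    rw [NN_succ, pow_succ]
    have := MM_ge (k + 1)
    exact Nat.mul_le_mul ih (by omega)

theorem NN_pos (k : ℕ) : 0 < NN k := lt_of_lt_of_le (by positivity) (NN_ge k)

theorem NN_pos' (k : ℕ) : (0:ℝ) < NN k := by exact_mod_cast NN_pos k

noncomputable def ee (k : ℕ) : ℝ := 1 / (NN k : ℝ)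

theorem ee_pos (k : ℕ) : 0 < ee k := by
  unfold ee
  have := NN_pos' k
  positivity

theorem ee_succ (k : ℕ) : ee (k + 1) * MM (k + 1) = ee k / 2 := by
  have h0 := MM_ge' (k + 1)
  have h1 := NN_pos' k
  unfold ee
  rw [NN_succ]
  push_cast
  field_simp

theorem ee_succ_le (k : ℕ) : ee (k + 1) ≤ ee k / 2 := by
  rw [← ee_succ]
  have := MM_ge' (k + 1)
  have := ee_pos (k + 1)
  nlinarith

theorem ee_add_le (k i : ℕ) : ee (k + i) ≤ ee k * (1 / 2) ^ i := by
  induction i with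
  | zero => simp
  | succ i ih =>
    have := ee_succ_le (k + i)
    rw [← add_assoc, pow_succ]
    linarith

theorem ee_zero : ee 0 * MM 0 = 1 / 2 := by
  have h0 := MM_ge' 0
  unfold ee
  rw [NN_zero]
  push_cast
  field_simp

theorem ee_zero_le : ee 0 ≤ 1 := by
  have h := ee_zero
  have := MM_ge' 0
  have := ee_pos 0
  nlinarith

theorem eeMM_le (k : ℕ) : ee k * MM k ≤ (1 / 2) ^ k := by
  cases k with
  | zero => rw [ee_zero]; norm_num
  | succ k =>
    rw [ee_succ, pow_succ]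
    have h1 := ee_add_le 0 k
    rw [zero_add] at h1
    have h2 := ee_zero_le
    have h3 : (0:ℝ) < (1 / 2) ^ k := by positivity
    nlinarith

theorem summable_geo : Summable (fun k : ℕ => ((1:ℝ) / 2) ^ k) :=
  summable_geometric_of_lt_one (by norm_num) (by norm_num)

theorem uu_nonneg (k : ℕ) (z : ℂ) : 0 ≤ uu k z :=
  mul_nonneg (bump.nonneg) (L_nonneg _)

theorem uu_le (k : ℕ) (z : ℂ) : uu k z ≤ MM k := by
  have := MM_spec k 0 (Nat.zero_le _) z
  rw [norm_iteratedFDeriv_zero, Real.norm_of_nonneg (uu_nonneg k z)] at this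
  exact this

theorem term_nonneg (k : ℕ) (z : ℂ) : 0 ≤ ee k * uu k z := mul_nonneg (ee_pos k).le (uu_nonneg k z)

theorem term_le (k : ℕ) (z : ℂ) : ee k * uu k z ≤ (1 / 2) ^ k :=
  (mul_le_mul_of_nonneg_left (uu_le k z) (ee_pos k).le).trans (eeMM_le k)

theorem term_summable (z : ℂ) : Summable (fun k => ee k * uu k z) :=
  Summable.of_nonneg_of_le (fun k => term_nonneg k z) (fun k => term_le k z) summable_geo

noncomputable def phi (z : ℂ) : ℝ := ∑' k, ee k * uu k z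

theorem phi_nonneg (z : ℂ) : 0 ≤ phi z := tsum_nonneg (fun k => term_nonneg k z)

theorem phi_zero : phi 0 = 0 := by
  unfold phi
  have : ∀ k, ee k * uu k 0 = 0 := by
    intro k
    unfold uu
    rw [zero_div, L_zero, mul_zero, mul_zero]
  simp [this]

theorem phi_contDiff (n : ℕ) : ContDiff ℝ n phi := by
  have h := contDiff_tsum_of_eventually (𝕜 := ℝ) (f := fun (k : ℕ) (z : ℂ) => ee k * uu k z)
    (v := fun _ k => ((1:ℝ) / 2) ^ k) (N := (n : ℕ∞)) (fun k => ?_) (fun _ _ => summable_geo) ?_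
  · exact h
  · exact contDiff_const.mul (uu_contDiff k n)
  · intro i _
    rw [Nat.cofinite_eq_atTop]
    filter_upwards [eventually_ge_atTop i] with k hk z
    have h1 : iteratedFDeriv ℝ i (fun z => ee k * uu k z) z = ee k • iteratedFDeriv ℝ i (uu k) z := by
      have : (fun z => ee k * uu k z) = ee k • uu k := by
        ext z; simp
      rw [this, iteratedFDeriv_const_smul_apply ((uu_contDiff k i).contDiffAt)]
    rw [h1, norm_smul, Real.norm_of_nonneg (ee_pos k).le]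
    exact (mul_le_mul_of_nonneg_left (MM_spec k i hk z) (ee_pos k).le).trans (eeMM_le k)

theorem phi_split (k : ℕ) (z : ℂ) :
    phi z = ∑ j ∈ Finset.range k, ee j * uu j z + ee k * uu k z + ∑' j, ee (j + (k + 1)) * uu (j + (k + 1)) z := by
  rw [phi, ← (term_summable z).sum_add_tsum_nat_add (k + 1), Finset.sum_range_succ]

theorem tail_nonneg (k : ℕ) (z : ℂ) : 0 ≤ ∑' j, ee (j + (k + 1)) * uu (j + (k + 1)) z :=
  tsum_nonneg (fun _ => term_nonneg _ z)

theorem tail_le (k : ℕ) (z : ℂ) : ∑' j, ee (j + (k + 1)) * uu (j + (k + 1)) z ≤ ee k := by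
  have hs : Summable (fun j : ℕ => ee k / 2 * (1 / 2) ^ j) := summable_geo.mul_left _
  have h1 : ∑' j, ee (j + (k + 1)) * uu (j + (k + 1)) z ≤ ∑' j : ℕ, ee k / 2 * (1 / 2) ^ j := by
    apply Summable.tsum_le_tsum _ ((summable_nat_add_iff (k + 1)).mpr (term_summable z)) hs
    intro j
    have h2 : ee (j + (k + 1)) * uu (j + (k + 1)) z ≤ ee (j + (k + 1)) * MM (j + (k + 1)) :=
      mul_le_mul_of_nonneg_left (uu_le _ z) (ee_pos _).le
    have h3 : ee (j + (k + 1)) * MM (j + (k + 1)) = ee (k + j) / 2 := by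
      have := ee_succ (k + j)
      rw [← this]
      have e : j + (k + 1) = k + j + 1 := by omega
      rw [e]
    have h4 := ee_add_le k j
    linarith
  have h5 : ∑' j : ℕ, ee k / 2 * (1 / 2 : ℝ) ^ j = ee k := by
    rw [tsum_mul_left, tsum_geometric_of_lt_one (by norm_num) (by norm_num)]
    ring
  linarith

theorem bump_one {z : ℂ} (hz : ‖z‖ ≤ Real.exp 3 + 1) : bump z = 1 :=
  bump.one_of_mem_closedBall (mem_closedBall_zero_iff.mpr hz)

theorem uu_eq {z : ℂ} (hz : ‖z‖ ≤ Real.exp 3 + 1) (k : ℕ) : uu k z = L (z / (tt k : ℝ)) := by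
  rw [uu, bump_one hz, one_mul]

theorem norm_div_tt (z : ℂ) (k : ℕ) : ‖z / (tt k : ℝ)‖ = ‖z‖ / tt k := by
  rw [norm_div, Complex.norm_real, Real.norm_of_nonneg (tt_pos k).le]

/-- lower bound -/
theorem phi_ge {z : ℂ} (hz : ‖z‖ ≤ Real.exp 3 + 1) (hz0 : z ≠ 0) (k : ℕ) :
    ee k * Real.log (‖z‖ / tt k) ≤ phi z := by
  have h1 := phi_split k z
  have h2 := tail_nonneg k z
  have h3 : 0 ≤ ∑ j ∈ Finset.range k, ee j * uu j z := Finset.sum_nonneg (fun j _ => term_nonneg j z)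
  have h4 : Real.log (‖z‖ / tt k) ≤ uu k z := by
    rw [uu_eq hz, ← norm_div_tt]
    apply log_le_L
    apply div_ne_zero hz0
    exact_mod_cast (tt_pos k).ne'
  have h5 := mul_le_mul_of_nonneg_left h4 (ee_pos k).le
  linarith

/-- upper bound near the centre -/
theorem phi_le {z : ℂ} {k : ℕ} (hz : ∀ j < k, ‖z‖ ≤ Real.exp (-1) * tt j) (hz1 : ‖z‖ ≤ Real.exp 3 + 1)
    {r : ℝ} (hr : 1 ≤ r) (hzr : ‖z‖ ≤ r * tt k) :
    phi z ≤ ee k * (Real.log r + 2) := by
  have h1 := phi_split k z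
  have h2 := tail_le k z
  have h3 : ∑ j ∈ Finset.range k, ee j * uu j z = 0 := by
    apply Finset.sum_eq_zero
    intro j hj
    rw [uu_eq hz1, L_small, mul_zero]
    rw [norm_div_tt, div_le_iff₀ (tt_pos j)]
    exact hz j (Finset.mem_range.mp hj)
  have h4 : uu k z ≤ Real.log r + 1 := by
    rw [uu_eq hz1]
    apply L_le hr
    rw [norm_div_tt, div_le_iff₀ (tt_pos k)]
    exact hzr
  have h5 := mul_le_mul_of_nonneg_left h4 (ee_pos k).le
  rw [h1, h3]
  linarith

end Pool.Agent.H788R3.Bp
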